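import Pool.Agent.MP_aa1ef7_ag.H40.Defs

/-! Definitions for the generic case: derivations, rings of logarithms, local series. -/

namespace Pool.Agent.MP_aa1ef7_ag.H20

open MvPolynomial
open Pool.Agent.MP_aa1ef7_ag.H40

section der

theorem exists_der_of_hom {k A : Type} [CommRing k] [CommRing A] [Algebra k A]
    (G : A →+* TrivSqZeroExt A A) (h1 : ∀ a, (G a).fst = a)
    (h3 : ∀ c : k, (G (algebraMap k A c)).snd = 0) :
    ∃ D : Derivation k A A, ∀ a, D a = (G a).snd := by
  have h2 : ∀ a b, (G (a * b)).snd = a * (G b).snd + b * (G a).snd := by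
    intro a b
    rw [map_mul, TrivSqZeroExt.snd_mul, h1, h1]
    simp [mul_comm]
  exact ⟨Derivation.mk'
    { toFun := fun a => (G a).snd
      map_add' := fun a b => by simp
      map_smul' := fun c a => by
        rw [Algebra.smul_def, h2, h3]
        simp [Algebra.smul_def] } fun a b => by simpa using h2 a b, fun _ => rfl⟩

/-- The ring map `r ↦ j r + ε j (D r)`. -/
noncomputable def dualHom {k R A : Type} [CommRing k] [CommRing R] [CommRing A] [Algebra k R]
    (j : R →+* A) (D : Derivation k R R) : R →+* TrivSqZeroExt A A where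
  toFun r := TrivSqZeroExt.inl (j r) + TrivSqZeroExt.inr (j (D r))
  map_one' := by simp
  map_mul' a b := by
    ext
    · simp
    · simp only [map_mul, Derivation.leibniz, smul_eq_mul, map_add, TrivSqZeroExt.snd_add,
        TrivSqZeroExt.snd_inl, TrivSqZeroExt.snd_inr, TrivSqZeroExt.snd_mul,
        TrivSqZeroExt.fst_add, TrivSqZeroExt.fst_inl, TrivSqZeroExt.fst_inr, zero_add, add_zero,
        op_smul_eq_smul]
  map_zero' := by simp
  map_add' a b := by
    ext <;> simp

theorem dualHom_fst {k R A : Type} [CommRing k] [CommRing R] [CommRing A] [Algebra k R]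
    (j : R →+* A) (D : Derivation k R R) (r : R) : (dualHom j D r).fst = j r := by
  simp [dualHom]

theorem dualHom_snd {k R A : Type} [CommRing k] [CommRing R] [CommRing A] [Algebra k R]
    (j : R →+* A) (D : Derivation k R R) (r : R) : (dualHom j D r).snd = j (D r) := by
  simp [dualHom]

/-- A derivation extends to a localisation. -/
theorem exists_der_loc {k R A : Type} [CommRing k] [CommRing R] [CommRing A] [Algebra k R]
    [Algebra k A] [Algebra R A] [IsScalarTower k R A] (S : Submonoid R) [IsLocalization S A]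
    (D : Derivation k R R) :
    ∃ D' : Derivation k A A, ∀ r, D' (algebraMap R A r) = algebraMap R A (D r) := by
  have hg : ∀ s : S, IsUnit (dualHom (algebraMap R A) D s) := fun s => by
    rw [TrivSqZeroExt.isUnit_iff_isUnit_fst, dualHom_fst]
    exact IsLocalization.map_units A s
  let G : A →+* TrivSqZeroExt A A := IsLocalization.lift hg
  have hG : ∀ r, G (algebraMap R A r) = dualHom (algebraMap R A) D r := IsLocalization.lift_eq hg
  have h1 : ∀ a, (G a).fst = a := by
    have : (TrivSqZeroExt.fstHom k A A).toRingHom.comp G = RingHom.id A := by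
      apply IsLocalization.ringHom_ext S
      ext r
      simp [hG, dualHom_fst]
    exact fun a => congrArg (fun f : A →+* A => f a) this
  obtain ⟨D', hD'⟩ := exists_der_of_hom (k := k) G h1 fun c => by
    rw [IsScalarTower.algebraMap_apply k R A, hG, dualHom_snd]
    simp
  exact ⟨D', fun r => by rw [hD', hG, dualHom_snd]⟩

theorem exists_der_mv {k T ι : Type} [CommRing k] [CommRing T] [Algebra k T]
    (δ : Derivation k T T) (v : ι → MvPolynomial ι T) :
    ∃ D : Derivation k (MvPolynomial ι T) (MvPolynomial ι T),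
      (∀ a, D (C a) = C (δ a)) ∧ ∀ m, D (X m) = v m := by
  let G : MvPolynomial ι T →+* TrivSqZeroExt (MvPolynomial ι T) (MvPolynomial ι T) :=
    eval₂Hom (dualHom C δ) fun m => TrivSqZeroExt.inl (X m) + TrivSqZeroExt.inr (v m)
  have hC : ∀ a, G (C a) = dualHom C δ a := fun a => eval₂Hom_C _ _ a
  have hX : ∀ m, G (X m) = TrivSqZeroExt.inl (X m) + TrivSqZeroExt.inr (v m) :=
    fun m => eval₂Hom_X' _ _ m
  have h1 : ∀ a, (G a).fst = a := by
    intro a
    induction a using MvPolynomial.induction_on with
    | C a => rw [hC, dualHom_fst]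
    | add p q hp hq => rw [map_add, TrivSqZeroExt.fst_add, hp, hq]
    | mul_X p m hp => rw [map_mul, TrivSqZeroExt.fst_mul, hp, hX]; simp
  obtain ⟨D, hD⟩ := exists_der_of_hom (k := k) G h1 fun c => by
    rw [IsScalarTower.algebraMap_apply k T (MvPolynomial ι T), algebraMap_eq, hC, dualHom_snd]
    simp
  exact ⟨D, fun a => by rw [hD, hC, dualHom_snd], fun m => by rw [hD, hX]; simp⟩

/-- The derivation of `T[L]` that acts by `δ` on coefficients and sends `L m` to `v m`. -/
noncomputable def dext {k T ι : Type} [CommRing k] [CommRing T] [Algebra k T]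
    (δ : Derivation k T T) (v : ι → MvPolynomial ι T) :
    Derivation k (MvPolynomial ι T) (MvPolynomial ι T) := (exists_der_mv δ v).choose

theorem dext_C {k T ι : Type} [CommRing k] [CommRing T] [Algebra k T]
    (δ : Derivation k T T) (v : ι → MvPolynomial ι T) (a : T) : dext δ v (C a) = C (δ a) :=
  (exists_der_mv δ v).choose_spec.1 a

theorem dext_X {k T ι : Type} [CommRing k] [CommRing T] [Algebra k T]
    (δ : Derivation k T T) (v : ι → MvPolynomial ι T) (m : ι) : dext δ v (X m) = v m :=
  (exists_der_mv δ v).choose_spec.2 m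

/-- Additive maps with the Leibniz rule along a ring map agree if they agree on generators. -/
theorem leib_ext {T ι A : Type} [CommRing T] [CommRing A] (φ : MvPolynomial ι T →+* A)
    (D E : MvPolynomial ι T → A) (hD : ∀ a b, D (a + b) = D a + D b)
    (hE : ∀ a b, E (a + b) = E a + E b)
    (hD' : ∀ a b, D (a * b) = φ a * D b + φ b * D a)
    (hE' : ∀ a b, E (a * b) = φ a * E b + φ b * E a)
    (hC : ∀ a, D (C a) = E (C a)) (hX : ∀ m, D (X m) = E (X m)) (a : MvPolynomial ι T) :
    D a = E a := by
  induction a using MvPolynomial.induction_on with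
  | C a => exact hC a
  | add p q hp hq => rw [hD, hE, hp, hq]
  | mul_X p m hp => rw [hD', hE', hp, hX]

theorem coeff_dext {k T ι : Type} [CommRing k] [CommRing T] [Algebra k T] [Fintype ι]
    (δ : Derivation k T T) (w : ι → T) (A : MvPolynomial ι T) (e : ι →₀ ℕ) :
    coeff e (dext δ (fun m => C (w m)) A) =
      δ (coeff e A) + ∑ m, w m * coeff e (pderiv m A) := by
  classical
  have h0 : ∀ (A : MvPolynomial ι T) (e : ι →₀ ℕ),
      coeff e (dext δ (fun _ => 0) A) = δ (coeff e A) := by
    intro A
    induction A using MvPolynomial.induction_on with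
    | C a => intro e; rw [dext_C, coeff_C, coeff_C]; split_ifs <;> simp
    | add p q hp hq => intro e; simp [hp, hq]
    | mul_X p m hp =>
      intro e
      rw [Derivation.leibniz, dext_X, smul_zero, zero_add, smul_eq_mul, mul_comm, coeff_mul_X',
        coeff_mul_X']
      split_ifs
      · exact hp _
      · simp
  have h1 : dext δ (fun m => C (w m)) A =
      dext δ (fun _ => 0) A + ∑ m, C (w m) * pderiv m A := by
    refine leib_ext (RingHom.id _) (fun A => dext δ (fun m => C (w m)) A)
      (fun A => dext δ (fun _ => 0) A + ∑ m, C (w m) * pderiv m A) (fun a b => map_add _ a b)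
      (fun a b => ?_) (fun a b => by simp) (fun a b => ?_) (fun a => by simp [dext_C])
      (fun m => ?_) A
    · simp only [map_add, mul_add, Finset.sum_add_distrib]; ring
    · simp only [Derivation.leibniz, smul_eq_mul, RingHom.id_apply, mul_add,
        Finset.sum_add_distrib, Finset.mul_sum]
      have e1 : ∀ a b : MvPolynomial ι T, ∑ m, C (w m) * (a * pderiv m b) =
          ∑ m, a * (C (w m) * pderiv m b) := fun a b => Finset.sum_congr rfl fun _ _ => by ring
      rw [e1, e1]; ring
    · simp [dext_X, pderiv_X, Pi.single_apply]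
  rw [h1, coeff_add, h0, coeff_sum]
  simp only [coeff_C_mul]

end der

section abs

variable {S : Type} [CommRing S] [Algebra ℂ S]

/-- A derivation applied to every coefficient of a series in `t`. -/
noncomputable def cd (δ : Derivation ℂ S S) (H : PowerSeries S) : PowerSeries S :=
  PowerSeries.mk fun k => δ (PowerSeries.coeff k H)

/-- The Hamiltonian derivation `D A = f_y A_x - f_x A_y`. -/
def br (D : Fin 2 → Derivation ℂ S S) (f A : S) : S := D 1 f * D 0 A - D 0 f * D 1 A

/-- The vector field `P ∂x + Q ∂y` applied to `H`. -/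
noncomputable def vf (D : Fin 2 → Derivation ℂ S S) (P Q H : PowerSeries S) : PowerSeries S :=
  P * cd (D 0) H + Q * cd (D 1) H

/-- All coefficients lie in `V`. -/
def InS (V : Set S) (H : PowerSeries S) : Prop := ∀ k, PowerSeries.coeff k H ∈ V

/-- Commuting derivations and a deformation of the Hamiltonian field of `f`. -/
structure Amb (D : Fin 2 → Derivation ℂ S S) (f : S) (P Q : PowerSeries S) : Prop where
  comm : ∀ A, D 0 (D 1 A) = D 1 (D 0 A)
  P0 : PowerSeries.constantCoeff P = D 1 f
  Q0 : PowerSeries.constantCoeff Q = -D 0 f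

/-- A subalgebra closed under the derivations with the division property. -/
structure Sub (D : Fin 2 → Derivation ℂ S S) (f : S) (T : Subalgebra ℂ S) : Prop where
  der : ∀ i, ∀ A ∈ T, D i A ∈ T
  div : ∀ a ∈ T, ∀ b ∈ T, a * D 0 f + b * D 1 f = 0 → ∃ c ∈ T, a = c * D 1 f ∧ b = -(c * D 0 f)

theorem coeff_cd (δ : Derivation ℂ S S) (H : PowerSeries S) (k : ℕ) :
    PowerSeries.coeff k (cd δ H) = δ (PowerSeries.coeff k H) := PowerSeries.coeff_mk _ _

theorem cd_add (δ : Derivation ℂ S S) (G H : PowerSeries S) : cd δ (G + H) = cd δ G + cd δ H := by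
  ext k; simp [coeff_cd]

theorem cd_sub (δ : Derivation ℂ S S) (G H : PowerSeries S) : cd δ (G - H) = cd δ G - cd δ H := by
  ext k; simp [coeff_cd]

theorem cd_mul (δ : Derivation ℂ S S) (G H : PowerSeries S) :
    cd δ (G * H) = G * cd δ H + H * cd δ G := by
  ext k
  rw [mul_comm H, map_add, coeff_cd, PowerSeries.coeff_mul, PowerSeries.coeff_mul,
    PowerSeries.coeff_mul, map_sum, ← Finset.sum_add_distrib]
  refine Finset.sum_congr rfl fun x _ => ?_
  simp only [Derivation.leibniz, smul_eq_mul, coeff_cd]; ring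

theorem cd_C (δ : Derivation ℂ S S) (a : S) : cd δ (PowerSeries.C a) = PowerSeries.C (δ a) := by
  ext k
  rw [coeff_cd, PowerSeries.coeff_C, PowerSeries.coeff_C]
  split_ifs <;> simp

theorem cd_X (δ : Derivation ℂ S S) : cd δ PowerSeries.X = 0 := by
  ext k
  rw [coeff_cd, PowerSeries.coeff_X]
  split_ifs <;> simp

theorem br_add (D : Fin 2 → Derivation ℂ S S) (f A B : S) :
    br D f (A + B) = br D f A + br D f B := by simp only [br, map_add]; ring

theorem br_sub (D : Fin 2 → Derivation ℂ S S) (f A B : S) :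
    br D f (A - B) = br D f A - br D f B := by simp only [br, map_sub]; ring

theorem br_mul (D : Fin 2 → Derivation ℂ S S) (f A B : S) :
    br D f (A * B) = A * br D f B + B * br D f A := by
  simp only [br, Derivation.leibniz, smul_eq_mul]; ring

theorem br_smul (D : Fin 2 → Derivation ℂ S S) (f : S) (c : ℂ) (A : S) :
    br D f (c • A) = c • br D f A := by
  simp only [br, Derivation.map_smul, smul_sub, mul_smul_comm]

theorem br_zero (D : Fin 2 → Derivation ℂ S S) (f : S) : br D f 0 = 0 := by simp [br]

theorem br_self (D : Fin 2 → Derivation ℂ S S) (f : S) : br D f f = 0 := by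
  simp only [br]; ring

theorem br_aeval (D : Fin 2 → Derivation ℂ S S) (f : S) (c : Polynomial ℂ) :
    br D f (Polynomial.aeval f c) = 0 := by
  simp only [br, Derivation.map_aeval, smul_eq_mul]; ring

theorem br_aeval_mul (D : Fin 2 → Derivation ℂ S S) (f : S) (c : Polynomial ℂ) (A : S) :
    br D f (Polynomial.aeval f c * A) = Polynomial.aeval f c * br D f A := by
  rw [br_mul, br_aeval]; ring

theorem br_sum (D : Fin 2 → Derivation ℂ S S) (f : S) {ι : Type} (s : Finset ι) (A : ι → S) :
    br D f (∑ i ∈ s, A i) = ∑ i ∈ s, br D f (A i) := by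
  simp only [br, map_sum, Finset.mul_sum, Finset.sum_sub_distrib]

end abs

section ser

variable {K : Type} [CommRing K]

/-- Series in two variables. -/
abbrev Ser (K : Type) : Type := MvPowerSeries (Fin 2) K

/-- Polynomials in two variables. -/
abbrev Pl (K : Type) [CommRing K] : Type := MvPolynomial (Fin 2) K

/-- Partial derivatives of series. -/
noncomputable def dS (i : Fin 2) : Derivation K (Ser K) (Ser K) := MvPowerSeries.pderiv K i

/-- The value at the origin. -/
noncomputable def cc (G : Ser K) : K := MvPowerSeries.constantCoeff G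

/-- The Taylor expansion of a polynomial at `p`. -/
noncomputable def tay (p : Fin 2 → K) : Pl K →ₐ[K] Ser K :=
  aeval fun i => MvPowerSeries.C (p i) + MvPowerSeries.X i

/-- Hessian determinant at the origin. -/
noncomputable def hess (h : Ser K) : K :=
  cc (dS 0 (dS 0 h)) * cc (dS 1 (dS 1 h)) - cc (dS 0 (dS 1 h)) ^ 2

/-- Jacobian determinant at the origin. -/
noncomputable def jac (P Q : Ser K) : K :=
  cc (dS 0 P) * cc (dS 1 Q) - cc (dS 1 P) * cc (dS 0 Q)

/-- All coefficients of degree below `n` vanish. -/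
def Ord (n : ℕ) (G : Ser K) : Prop :=
  ∀ e : Fin 2 →₀ ℕ, e 0 + e 1 < n → MvPowerSeries.coeff e G = 0

/-- The quadratic form `c x² - 2 a x y - b y²` killed by the linear part `(a x + b y, c x - a y)`. -/
noncomputable def qf (P Q : Ser K) : Ser K :=
  MvPowerSeries.C (cc (dS 0 Q)) * MvPowerSeries.X 0 ^ 2
    - 2 * MvPowerSeries.C (cc (dS 0 P)) * MvPowerSeries.X 0 * MvPowerSeries.X 1
    - MvPowerSeries.C (cc (dS 1 P)) * MvPowerSeries.X 1 ^ 2

/-- `h` is a formal Morse first integral of `P ∂x + Q ∂y` at the nondegenerate zero `0`. -/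
structure FCs (P Q h : Ser K) : Prop where
  P0 : cc P = 0
  Q0 : cc Q = 0
  jac : IsUnit (jac P Q)
  int : P * dS 0 h + Q * dS 1 h = 0
  crit : ∀ i, cc (dS i h) = 0
  hess : IsUnit (hess h)

/-- Formal centre at `p`. -/
def FC (P Q : Pl K) (p : Fin 2 → K) : Prop := ∃ h, FCs (tay p P) (tay p Q) h

/-- The linear part is traceless and diagonalisable over `K`. -/
structure Diag (P Q : Ser K) : Prop where
  P0 : cc P = 0
  Q0 : cc Q = 0
  tr : cc (dS 1 Q) = -cc (dS 0 P)
  lam : ∃ lam : K, IsUnit lam ∧ lam ^ 2 = -jac P Q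
  cyc : ∃ s t : K,
    IsUnit (cc (dS 1 P) * s ^ 2 - 2 * cc (dS 0 P) * s * t - cc (dS 0 Q) * t ^ 2)

theorem dS_tay (p : Fin 2 → K) (i : Fin 2) (r : Pl K) : dS i (tay p r) = tay p (pderiv i r) := by
  refine leib_ext (tay p).toRingHom (fun r => dS i (tay p r)) (fun r => tay p (pderiv i r))
    (fun a b => by simp) (fun a b => by simp) (fun a b => by simp) (fun a b => by simp)
    (fun a => ?_) (fun m => ?_) r
  · simp only [tay, algHom_C, Derivation.map_algebraMap, derivation_C, map_zero]
  · simp only [tay, aeval_X, map_add, dS, MvPowerSeries.pderiv_C, zero_add,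
      MvPowerSeries.pderiv_X, pderiv_X, Pi.single_apply]
    split_ifs <;> simp

theorem cc_tay (p : Fin 2 → K) (r : Pl K) : cc (tay p r) = eval p r := by
  induction r using MvPolynomial.induction_on with
  | C a => simp [cc, tay, MvPowerSeries.algebraMap_apply]
  | add a b ha hb => simp only [cc, map_add] at ha hb ⊢; rw [ha, hb]
  | mul_X a m ha => simp only [cc, map_mul] at ha ⊢; rw [ha]; simp [tay]

theorem dS_comm (A : Ser K) : dS 0 (dS 1 A) = dS 1 (dS 0 A) := by
  ext e
  simp only [dS, MvPowerSeries.coeff_pderiv]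
  rw [add_right_comm e]
  simp
  ring

/-- Exponents of total degree at most `n`. -/
noncomputable def mon (n : ℕ) : Finset (Fin 2 →₀ ℕ) :=
  (Finset.Iic (Finsupp.equivFunOnFinite.symm fun _ => n)).filter fun m => m 0 + m 1 ≤ n

theorem mem_mon {n : ℕ} {m : Fin 2 →₀ ℕ} : m ∈ mon n ↔ m 0 + m 1 ≤ n := by
  simp only [mon, Finset.mem_filter, Finset.mem_Iic, and_iff_right_iff_imp]
  intro h i
  fin_cases i <;> simp <;> omega

/-- Index set of the coefficients of a form. -/
abbrev CI : Type := Bool × (Fin 2 →₀ ℕ)

/-- The polynomial of degree at most `d` with the given coefficients (`true`: `P`, `false`: `Q`). -/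
noncomputable def formOf (d : ℕ) (c : CI → K) (b : Bool) : Pl K :=
  ∑ m ∈ mon d, monomial m (c (b, m))

/-- The coefficients of a pair of polynomials. -/
noncomputable def coordsK (P Q : Pl K) : CI → K := fun i => coeff i.2 (if i.1 then P else Q)

/-- `P dy - Q dx` is a logarithmic form of type `D` over `K`. -/
def IsLog {s : ℕ} (D : Fin s → ℕ) (P Q : Pl K) : Prop :=
  ∃ (f : Fin s → Pl K) (lam : Fin s → K), (∀ i, (f i).totalDegree ≤ D i) ∧
    P = ∑ i, (C (lam i) * ∏ j ∈ Finset.univ.erase i, f j) * pderiv 1 (f i) ∧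
    Q = ∑ i, (C (lam i) * ∏ j ∈ Finset.univ.erase i, f j) * -pderiv 0 (f i)

/-- Every monomial of degree `2 d - 1` lies in the Jacobian ideal of the top form of `f`. -/
def Syl (d : ℕ) (f : Pl K) : Prop :=
  ∀ m : Fin 2 →₀ ℕ, m 0 + m 1 = 2 * d - 1 → ∃ α β : Pl K,
    α.IsHomogeneous (d - 1) ∧ β.IsHomogeneous (d - 1) ∧
    monomial m 1 = α * pderiv 0 (homogeneousComponent (d + 1) f)
      + β * pderiv 1 (homogeneousComponent (d + 1) f)

/-- Polynomials over `K[[t]]` as series in `t` of polynomials. -/
noncomputable def sw : Pl (PowerSeries K) →+* PowerSeries (Pl K) :=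
  eval₂Hom (PowerSeries.map (C : K →+* Pl K)) fun i => PowerSeries.C (X i)

end ser

end Pool.Agent.MP_aa1ef7_ag.H20
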