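import Pool.Agent.MP_aa1ef7_ag.H20.Base

/-! Change of coefficient ring. -/

namespace Pool.Agent.MP_aa1ef7_ag.H20

open MvPolynomial

variable {K K' : Type} [CommRing K] [CommRing K'] (j : K →+* K')

theorem cc_map (G : Ser K) : cc (MvPowerSeries.map j G) = j (cc G) :=
  MvPowerSeries.constantCoeff_map j G

theorem dS_map (i : Fin 2) (G : Ser K) :
    dS i (MvPowerSeries.map j G) = MvPowerSeries.map j (dS i G) := by
  ext e
  simp [dS, MvPowerSeries.coeff_pderiv]

theorem jac_map (P Q : Ser K) :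
    jac (MvPowerSeries.map j P) (MvPowerSeries.map j Q) = j (jac P Q) := by
  simp [jac, dS_map, cc_map]

theorem hess_map (h : Ser K) : hess (MvPowerSeries.map j h) = j (hess h) := by
  simp [hess, dS_map, cc_map]

theorem qf_map (P Q : Ser K) :
    qf (MvPowerSeries.map j P) (MvPowerSeries.map j Q) = MvPowerSeries.map j (qf P Q) := by
  simp [qf, dS_map, cc_map, map_ofNat]

theorem Ord.map {n : ℕ} {G : Ser K} (h : Ord n G) : Ord n (MvPowerSeries.map j G) := fun e he => by
  rw [MvPowerSeries.coeff_map, h e he, map_zero]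

theorem tay_map (p : Fin 2 → K) (r : Pl K) :
    tay (j ∘ p) (MvPolynomial.map j r) = MvPowerSeries.map j (tay p r) := by
  induction r using MvPolynomial.induction_on with
  | C a => simp [tay, MvPowerSeries.algebraMap_apply]
  | add a b ha hb => simp only [map_add, ha, hb]
  | mul_X a m ha => simp only [map_mul, ha]; simp [tay]

theorem FCs.map {P Q h : Ser K} (H : FCs P Q h) :
    FCs (MvPowerSeries.map j P) (MvPowerSeries.map j Q) (MvPowerSeries.map j h) where
  P0 := by rw [cc_map, H.P0, map_zero]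
  Q0 := by rw [cc_map, H.Q0, map_zero]
  jac := by rw [jac_map]; exact H.jac.map j
  int := by rw [dS_map, dS_map, ← map_mul, ← map_mul, ← map_add, H.int, map_zero]
  crit i := by rw [dS_map, cc_map, H.crit, map_zero]
  hess := by rw [hess_map]; exact H.hess.map j

theorem FC.map {P Q : Pl K} {p : Fin 2 → K} (H : FC P Q p) :
    FC (MvPolynomial.map j P) (MvPolynomial.map j Q) (j ∘ p) := by
  obtain ⟨h, H⟩ := H
  exact ⟨_, by rw [tay_map, tay_map]; exact H.map j⟩

theorem formOf_map (d : ℕ) (c : CI → K) (b : Bool) :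
    MvPolynomial.map j (formOf d c b) = formOf d (j ∘ c) b := by
  simp [formOf]

theorem coeff_formOf (d : ℕ) (c : CI → K) (b : Bool) (m : Fin 2 →₀ ℕ) :
    coeff m (formOf d c b) = if m 0 + m 1 ≤ d then c (b, m) else 0 := by
  classical
  simp [formOf, coeff_sum, coeff_monomial, mem_mon]

theorem deg_le_iff {n : ℕ} {r : Pl K} :
    r.totalDegree ≤ n ↔ ∀ m : Fin 2 →₀ ℕ, n < m 0 + m 1 → coeff m r = 0 := by
  constructor
  · intro h m hm
    refine coeff_eq_zero_of_totalDegree_lt (h.trans_lt ?_)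
    rwa [Finset.sum_subset (Finset.subset_univ _) (by simp), Fin.sum_univ_two]
  · intro h
    refine totalDegree_le_of_support_subset_aux h
where
  totalDegree_le_of_support_subset_aux {n : ℕ} {r : Pl K}
      (h : ∀ m : Fin 2 →₀ ℕ, n < m 0 + m 1 → coeff m r = 0) : r.totalDegree ≤ n := by
    refine Finset.sup_le fun m hm => ?_
    by_contra hc
    refine mem_support_iff.1 hm (h m ?_)
    rwa [Finsupp.sum_fintype _ _ (by simp), Fin.sum_univ_two, not_le] at hc

theorem deg_formOf (d : ℕ) (c : CI → K) (b : Bool) : (formOf d c b).totalDegree ≤ d :=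
  deg_le_iff.2 fun m hm => by rw [coeff_formOf, if_neg (by omega)]

theorem formOf_coordsK {d : ℕ} {P Q : Pl K} (hP : P.totalDegree ≤ d) (hQ : Q.totalDegree ≤ d) :
    formOf d (coordsK P Q) true = P ∧ formOf d (coordsK P Q) false = Q := by
  constructor <;> ext m <;> rw [coeff_formOf] <;> split_ifs with h
  · rfl
  · exact (deg_le_iff.1 hP m (by omega)).symm
  · rfl
  · exact (deg_le_iff.1 hQ m (by omega)).symm

theorem deg_pderiv_le {n : ℕ} {r : Pl K} (h : r.totalDegree ≤ n + 1) (i : Fin 2) :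
    (pderiv i r).totalDegree ≤ n := by
  refine deg_le_iff.2 fun m hm => ?_
  rw [coeff_pderiv, deg_le_iff.1 h _ (by fin_cases i <;> simp <;> omega), zero_mul]

theorem pderiv_eq_zero_of_deg {r : Pl K} (h : r.totalDegree ≤ 0) (i : Fin 2) : pderiv i r = 0 := by
  ext m
  rw [coeff_pderiv, deg_le_iff.1 h _ (by fin_cases i <;> simp), zero_mul, coeff_zero]

theorem jac_tay (p : Fin 2 → K) (P Q : Pl K) : jac (tay p P) (tay p Q) =
    eval p (pderiv 0 P * pderiv 1 Q - pderiv 1 P * pderiv 0 Q) := by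
  simp [jac, dS_tay, cc_tay]

theorem jac_ham (φ : Ser K) : jac (dS 1 φ) (-dS 0 φ) = hess φ := by
  simp only [jac, hess, map_neg, cc, ← dS_comm]; ring

theorem pderiv_comm2 (r : Pl K) : pderiv 0 (pderiv 1 r) = pderiv 1 (pderiv 0 r) := by
  ext e
  simp only [coeff_pderiv]
  rw [add_right_comm e]
  simp
  ring

end Pool.Agent.MP_aa1ef7_ag.H20
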