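import Pool.Agent.MP_aa1ef7_ag.H20.Base

/-! The rings attached to an arrangement of `d + 1` lines. -/

namespace Pool.Agent.MP_aa1ef7_ag.H20

open MvPolynomial
open Pool.Agent.MP_aa1ef7_ag.H40

variable {d : ℕ} (l : Fin (d + 1) → ℂ × ℂ × ℂ)

/-- The product of the lines. -/
noncomputable def ff : Poly := ∏ m, lin (l m)

/-- The product of the lines outside `I`. -/
noncomputable def gI (I : Finset (Fin (d + 1))) : Poly := ∏ m ∈ Iᶜ, lin (l m)

/-- `dir 0` is the coefficient of `x`, `dir 1` the coefficient of `y`. -/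
def dir (i : Fin 2) (a : ℂ × ℂ × ℂ) : ℂ := ![a.1, a.2.1] i

/-- Partial derivatives of polynomials. -/
noncomputable def dP (i : Fin 2) : Derivation ℂ Poly Poly := pderiv i

/-- `gam m n = (a_n b_m - a_m b_n) ∏_{k ≠ m, n} l_k`. -/
noncomputable def gam (m n : Fin (d + 1)) : Poly :=
  C ((l n).1 * (l m).2.1 - (l m).1 * (l n).2.1) * ∏ k ∈ (Finset.univ.erase m).erase n, lin (l k)

/-- `bet n = D (log l_n)`. -/
noncomputable def bet (n : Fin (d + 1)) : Poly := ∑ m, gam l m n

/-- `R[1/f]`. -/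
abbrev TT : Type := Localization.Away (ff l)

/-- `R[1/f][L]`. -/
abbrev BB : Type := MvPolynomial (Fin (d + 1)) (TT l)

/-- `R[L]`. -/
abbrev RL (d : ℕ) : Type := MvPolynomial (Fin (d + 1)) Poly

/-- Partial derivatives on `R[1/f]`. -/
noncomputable def dT (i : Fin 2) : Derivation ℂ (TT l) (TT l) :=
  (exists_der_loc (A := TT l) (Submonoid.powers (ff l)) (dP i)).choose

theorem dT_alg (i : Fin 2) (r : Poly) :
    dT l i (algebraMap Poly (TT l) r) = algebraMap Poly (TT l) (pderiv i r) :=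
  (exists_der_loc (A := TT l) (Submonoid.powers (ff l)) (dP i)).choose_spec r

/-- The inverse of `l_m` in `R[1/f]`. -/
noncomputable def linv (m : Fin (d + 1)) : TT l :=
  algebraMap Poly (TT l) (gI l {m}) * IsLocalization.Away.invSelf (ff l)

/-- Partial derivatives on `R[1/f][L]`, with `d L_m = d l_m / l_m`. -/
noncomputable def dB (i : Fin 2) : Derivation ℂ (BB l) (BB l) :=
  dext (dT l i) fun m => C (dir i (l m) • linv l m)

/-- The derivation `∂ / ∂ L_m`. -/
noncomputable def dL (m : Fin (d + 1)) : Derivation ℂ (BB l) (BB l) :=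
  (pderiv m : Derivation (TT l) (BB l) (BB l)).restrictScalars ℂ

theorem dL_apply (m : Fin (d + 1)) (A : BB l) : dL l m A = pderiv m A := rfl

/-- The inclusion `R → R[1/f][L]`. -/
noncomputable def cB : Poly →+* BB l := C.comp (algebraMap Poly (TT l))

/-- The inclusion `R[L] → R[1/f][L]`. -/
noncomputable def iB : RL d →+* BB l := MvPolynomial.map (algebraMap Poly (TT l))

/-- `D` on `R[1/f][L]`. -/
noncomputable def DB (A : BB l) : BB l := br (dB l) (cB l (ff l)) A

/-- `D` on `R`. -/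
noncomputable def DP (A : Poly) : Poly := br dP (ff l) A

/-- `D` on `R` as a derivation. -/
noncomputable def derP : Derivation ℂ Poly Poly :=
  pderiv 1 (ff l) • dP 0 - pderiv 0 (ff l) • dP 1

theorem derP_apply (A : Poly) : derP l A = DP l A := by
  simp [derP, DP, br, dP]

/-- `D` on `R[L]`. -/
noncomputable def DL : Derivation ℂ (RL d) (RL d) := dext (derP l) fun m => C (bet l m)

theorem dB_cB (i : Fin 2) (r : Poly) : dB l i (cB l r) = cB l (pderiv i r) := by
  simp only [dB, cB, RingHom.comp_apply, dext_C, dT_alg]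

theorem iB_C (r : Poly) : iB l (C r) = cB l r := map_C _ _

theorem iB_X (m : Fin (d + 1)) : iB l (X m) = X m := map_X _ _

theorem ff_eq (I : Finset (Fin (d + 1))) : ff l = (∏ m ∈ I, lin (l m)) * gI l I :=
  (Finset.prod_mul_prod_compl I _).symm

theorem lin_mul_linv (m : Fin (d + 1)) : algebraMap Poly (TT l) (lin (l m)) * linv l m = 1 := by
  have h : lin (l m) * gI l {m} = ff l := by rw [ff_eq l {m}, Finset.prod_singleton]
  rw [linv, ← mul_assoc, ← map_mul, h, IsLocalization.Away.mul_invSelf]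

/-- No `L_i` with `i ∈ I`. -/
noncomputable def SI (I : Finset (Fin (d + 1))) : Subalgebra ℂ (BB l) where
  carrier := {A | ∀ i ∈ I, pderiv i A = 0}
  mul_mem' ha hb i hi := by rw [Derivation.leibniz, ha i hi, hb i hi]; simp
  add_mem' ha hb i hi := by rw [map_add, ha i hi, hb i hi]; simp
  algebraMap_mem' c i _ := (dL l i).map_algebraMap c

theorem mem_SI {I : Finset (Fin (d + 1))} {A : BB l} : A ∈ SI l I ↔ ∀ i ∈ I, pderiv i A = 0 :=
  Iff.rfl

theorem cB_C (c : ℂ) : cB l (C c) = algebraMap ℂ (BB l) c := by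
  rw [IsScalarTower.algebraMap_apply ℂ (TT l) (BB l), IsScalarTower.algebraMap_apply ℂ Poly (TT l)]
  rfl

/-- No `L_i` and no pole along `l_i` for `i ∈ I`. -/
noncomputable def RI (I : Finset (Fin (d + 1))) : Subalgebra ℂ (BB l) where
  carrier := {A | A ∈ SI l I ∧ ∃ (N : ℕ) (Z : RL d), iB l Z = cB l (gI l I) ^ N * A}
  mul_mem' := by
    rintro a b ⟨ha, N, Z, hZ⟩ ⟨hb, M, W, hW⟩
    exact ⟨mul_mem ha hb, N + M, Z * W, by rw [map_mul, hZ, hW]; ring⟩
  add_mem' := by
    rintro a b ⟨ha, N, Z, hZ⟩ ⟨hb, M, W, hW⟩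
    refine ⟨add_mem ha hb, N + M, C (gI l I) ^ M * Z + C (gI l I) ^ N * W, ?_⟩
    rw [map_add, map_mul, map_mul, map_pow, map_pow, hZ, hW, iB_C]; ring
  algebraMap_mem' c := ⟨algebraMap_mem _ c, 0, C (C c), by rw [iB_C, cB_C]; simp⟩

theorem mem_RI {I : Finset (Fin (d + 1))} {A : BB l} : A ∈ RI l I ↔
    A ∈ SI l I ∧ ∃ (N : ℕ) (Z : RL d), iB l Z = cB l (gI l I) ^ N * A := Iff.rfl

/-- The substitution `L_i ↦ - ∑_{k ≠ i} L_k`. -/
noncomputable def subS (i : Fin (d + 1)) : BB l →ₐ[TT l] BB l :=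
  aeval fun m => if m = i then -∑ k ∈ Finset.univ.erase i, X k else X m

/-- The substitution `L_m ↦ L_m - (∑ L_k) / (d + 1)`. -/
noncomputable def subP : BB l →ₐ[TT l] BB l :=
  aeval fun m => X m - algebraMap ℂ (BB l) ((d + 1 : ℂ)⁻¹) * ∑ k, X k

/-- The elements that depend only on the differences of the logarithms. -/
noncomputable def RP : Subalgebra ℂ (BB l) where
  carrier := {A | subP l A = A}
  mul_mem' {a b} ha hb := by
    change subP l (a * b) = a * b
    rw [map_mul, show subP l a = a from ha, show subP l b = b from hb]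
  add_mem' {a b} ha hb := by
    change subP l (a + b) = a + b
    rw [map_add, show subP l a = a from ha, show subP l b = b from hb]
  algebraMap_mem' c := by
    change subP l _ = _
    rw [IsScalarTower.algebraMap_apply ℂ (TT l) (BB l), AlgHom.commutes]

theorem mem_RP {A : BB l} : A ∈ RP l ↔ subP l A = A := Iff.rfl

theorem deg_ff_le : (ff l).totalDegree ≤ d + 1 := by
  refine (totalDegree_finsetProd _ _).trans ?_
  refine (Finset.sum_le_card_nsmul _ _ 1 fun m _ => ?_).trans (by simp)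
  refine (totalDegree_add _ _).trans (max_le ((totalDegree_add _ _).trans (max_le ?_ ?_)) ?_)
  · exact (totalDegree_mul _ _).trans (by simp)
  · exact (totalDegree_mul _ _).trans (by simp)
  · simp

theorem deg_pow_mul {N n : ℕ} {r : Poly} (h : r.totalDegree ≤ n) :
    (ff l ^ N * r).totalDegree ≤ n + N * (d + 1) := by
  refine (totalDegree_mul _ _).trans ?_
  have := (totalDegree_pow (ff l) N).trans (Nat.mul_le_mul_left N (deg_ff_le l))
  omega

/-- The elements of `RP` of degree at most `n` at infinity. -/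
noncomputable def RD (n : ℕ) : AddSubgroup (BB l) where
  carrier := {A | A ∈ RP l ∧ ∃ (N : ℕ) (Z : RL d), iB l Z = cB l (ff l) ^ N * A ∧
    ∀ e, (coeff e Z).totalDegree ≤ n + N * (d + 1)}
  zero_mem' := ⟨zero_mem _, 0, 0, by simp, by simp⟩
  neg_mem' := by
    rintro a ⟨ha, N, Z, hZ, hd⟩
    exact ⟨neg_mem ha, N, -Z, by rw [map_neg, hZ]; ring, fun e => by simpa using hd e⟩
  add_mem' := by
    rintro a b ⟨ha, N, Z, hZ, hd⟩ ⟨hb, M, W, hW, hd'⟩
    refine ⟨add_mem ha hb, N + M, C (ff l ^ M) * Z + C (ff l ^ N) * W, ?_, fun e => ?_⟩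
    · rw [map_add, map_mul, map_mul, hZ, hW, iB_C, iB_C, map_pow, map_pow]; ring
    · rw [coeff_add, coeff_C_mul, coeff_C_mul]
      refine (totalDegree_add _ _).trans (max_le ?_ ?_)
      · exact (deg_pow_mul l (hd e)).trans (by rw [add_mul]; omega)
      · exact (deg_pow_mul l (hd' e)).trans (by rw [add_mul]; omega)

theorem mem_RD {n : ℕ} {A : BB l} : A ∈ RD l n ↔
    A ∈ RP l ∧ ∃ (N : ℕ) (Z : RL d), iB l Z = cB l (ff l) ^ N * A ∧
      ∀ e, (coeff e Z).totalDegree ≤ n + N * (d + 1) := Iff.rfl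

/-- Polynomials of degree at most `n`. -/
noncomputable def RH (n : ℕ) : AddSubgroup (BB l) where
  carrier := {A | ∃ r : Poly, r.totalDegree ≤ n ∧ A = cB l r}
  zero_mem' := ⟨0, by simp, by simp⟩
  neg_mem' := by
    rintro a ⟨r, hr, rfl⟩
    exact ⟨-r, by simpa using hr, by simp⟩
  add_mem' := by
    rintro a b ⟨r, hr, rfl⟩ ⟨s, hs, rfl⟩
    exact ⟨r + s, (totalDegree_add _ _).trans (max_le hr hs), by simp⟩

theorem mem_RH {n : ℕ} {A : BB l} : A ∈ RH l n ↔ ∃ r : Poly, r.totalDegree ≤ n ∧ A = cB l r :=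
  Iff.rfl

/-- Restriction to the line `l_i`, parametrised by `y ↦ (b y, - c / b - a y)`. -/
noncomputable def res (i : Fin (d + 1)) : Poly →ₐ[ℂ] Polynomial ℂ :=
  aeval ![Polynomial.C (l i).2.1 * Polynomial.X,
    Polynomial.C (-(l i).2.2 / (l i).2.1) - Polynomial.C (l i).1 * Polynomial.X]

/-- The series `log (l_m (p + z) / l_m (p))`. -/
noncomputable def lg (p : Fin 2 → ℂ) (m : Fin (d + 1)) : Ser ℂ := fun e =>
  (-1) ^ (e 0 + e 1 + 1) * ((e 0 + e 1).choose (e 0) : ℂ) / ((e 0 + e 1 : ℕ) : ℂ)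
    * ((l m).1 / eval p (lin (l m))) ^ e 0 * ((l m).2.1 / eval p (lin (l m))) ^ e 1

/-- Coefficients of the terms `L_m D L_n`. -/
abbrev CC (d : ℕ) : Type := Fin (d + 1) → Fin (d + 1) → Polynomial ℂ

/-- The germ at `p` of `b + ∑ c_mn (f) L_m D L_n`. -/
noncomputable def ev (p : Fin 2 → ℂ) (b : Poly) (c : CC d) : Ser ℂ :=
  tay p b + ∑ m, ∑ n, Polynomial.aeval (tay p (ff l)) (c m n) * (lg l p m * tay p (bet l n))

/-- `G` is `D`-exact as a series at `p`. -/
def Ex (p : Fin 2 → ℂ) (G : Ser ℂ) : Prop := ∃ A, br dS (tay p (ff l)) A = G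

/-- Critical point of `f`. -/
def Crit (p : Fin 2 → ℂ) : Prop := ∀ i, eval p (pderiv i (ff l)) = 0

/-- Critical point off the lines. -/
def Face (p : Fin 2 → ℂ) : Prop := Crit l p ∧ ∀ m, eval p (lin (l m)) ≠ 0

/-- `p` is the intersection point of the lines `i ≠ j`. -/
def Node (i j : Fin (d + 1)) (p : Fin 2 → ℂ) : Prop :=
  i ≠ j ∧ eval p (lin (l i)) = 0 ∧ eval p (lin (l j)) = 0

/-- `b ∈ D R + ∑ ℂ[f] bet m`. -/
def Triv (b : Poly) : Prop := ∃ (A : Poly) (e : Fin (d + 1) → Polynomial ℂ),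
  b = DP l A + ∑ m, Polynomial.aeval (ff l) (e m) * bet l m

/-- The polynomial part of the operator `∇ s`. -/
noncomputable def th0 (Y0 Y1 : Poly) (c : CC d) : Poly :=
  pderiv 0 Y0 + pderiv 1 Y1 + ∑ m, ∑ n, Polynomial.aeval (ff l) (c m n) * gam l m n

/-- The logarithmic part of the operator `∇ s`. -/
noncomputable def th1 (c : CC d) : CC d := fun m n => Polynomial.derivative (Polynomial.X * c m n)

/-- Index set of the generators. -/
abbrev GI (d : ℕ) : Type := {m // m ∈ mon (2 * d - 2)} ⊕ (Fin (d + 1) × Fin (d + 1))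

/-- The germs of the generators `x^m` and `L_m D L_n`. -/
noncomputable def gen (p : Fin 2 → ℂ) : GI d → Ser ℂ
  | Sum.inl m => tay p (monomial m.1 1)
  | Sum.inr mn => lg l p mn.1 * tay p (bet l mn.2)

/-- Relations over `ℂ[s]` between the generators modulo exact series at `p`. -/
noncomputable def Rel (p : Fin 2 → ℂ) : Submodule (Polynomial ℂ) (GI d → Polynomial ℂ) where
  carrier := {c | Ex l p (∑ a, Polynomial.aeval (tay p (ff l)) (c a) * gen l p a)}
  zero_mem' := ⟨0, by simp [br_zero]⟩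
  add_mem' := by
    rintro a b ⟨A, hA⟩ ⟨B, hB⟩
    exact ⟨A + B, by simp [br_add, hA, hB, add_mul, Finset.sum_add_distrib]⟩
  smul_mem' := by
    rintro q a ⟨A, hA⟩
    refine ⟨Polynomial.aeval (tay p (ff l)) q * A, ?_⟩
    rw [br_aeval_mul, hA, Finset.mul_sum]
    simp [mul_assoc]

theorem mem_Rel {p : Fin 2 → ℂ} {c : GI d → Polynomial ℂ} : c ∈ Rel l p ↔
    Ex l p (∑ a, Polynomial.aeval (tay p (ff l)) (c a) * gen l p a) := Iff.rfl

/-- The `3 (d + 1)` coefficients of the arrangement. -/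
def coef : Fin (d + 1) × Fin 3 → ℂ := fun k => ![(l k.1).1, (l k.1).2.1, (l k.1).2.2] k.2

/-- General position, no vertical line, at least three lines. -/
structure Geo : Prop where
  two : 2 ≤ d
  gen : GenPos l
  bne : ∀ m, (l m).2.1 ≠ 0

/-- Fields and derivations attached to generic constant terms `u_i = (l i).2.2`. -/
structure Fld where
  k0 : Subfield ℂ
  k : Fin (d + 1) → Subfield ℂ
  δ : Fin (d + 1) → Derivation ℤ ℂ ℂ
  dir0 : ∀ m, (l m).1 ∈ k0 ∧ (l m).2.1 ∈ k0
  le : ∀ i, k0 ≤ k i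
  mem : ∀ i j, j ≠ i → (l j).2.2 ∈ k i
  cl0 : ∀ z : ℂ, IsAlgebraic k0 z → z ∈ k0
  cl : ∀ i (z : ℂ), IsAlgebraic (k i) z → z ∈ k i
  ind : AlgebraicIndependent k0 fun i => (l i).2.2
  alg0 : ∀ z : ℂ, IsAlgebraic (IntermediateField.adjoin k0 (Set.range fun i => (l i).2.2)) z
  alg : ∀ i (z : ℂ), IsAlgebraic (IntermediateField.adjoin (k i) {(l i).2.2}) z
  dz : ∀ i, ∀ z ∈ k i, δ i z = 0
  du : ∀ i, δ i (l i).2.2 = 1

/-- The cone over `C` is killed by `Φ`. -/
def Van {d : ℕ} (C : Set (Fol d)) (Φ : MvPolynomial CI ℂ) : Prop :=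
  ∀ (v : Form d) (hv : v ≠ 0), Projectivization.mk ℂ v hv ∈ C →
    eval (coords (v : Poly × Poly)) Φ = 0

end Pool.Agent.MP_aa1ef7_ag.H20
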