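import Pool.Agent.MP_aa1ef7_ag.H20.Rings
import Pool.Agent.MP_aa1ef7_ag.H20.Maps

/-! Statements of the steps of the proof for generic arrangements. -/

namespace Pool.Agent.MP_aa1ef7_ag.H20

open MvPolynomial
open Pool.Agent.MP_aa1ef7_ag.H40

/-! ### Abstract recursion -/

def ExtS : Prop := ∀ (S : Type) [CommRing S] [Algebra ℂ S] (ι : Type) (Δ : ι → Derivation ℂ S S)
  (T : Subalgebra ℂ S) (K : Set S) (H : PowerSeries S), K ⊆ T → InS (T : Set S) H →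
  (∀ ψ ∈ K, ∃ ψ' ∈ K, ∀ i, Δ i ψ = ψ' * Δ i (PowerSeries.constantCoeff H)) →
  ∀ ψ ∈ K, ∃ E E' : PowerSeries S, InS (T : Set S) E ∧ PowerSeries.constantCoeff E = ψ ∧
    ∀ i, cd (Δ i) E = E' * cd (Δ i) H

def ObsS : Prop := ∀ (S : Type) [CommRing S] [Algebra ℂ S] (D : Fin 2 → Derivation ℂ S S) (f : S)
  (P Q : PowerSeries S) (T : Subalgebra ℂ S), Amb D f P Q → Sub D f T →
  ∀ H, InS (T : Set S) H → PowerSeries.constantCoeff H = f → ∀ j : ℕ,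
  (∀ i ≤ j, PowerSeries.coeff i (vf D P Q H) = 0) → ∀ h, InS (T : Set S) h →
  (∀ i < j, PowerSeries.coeff i (vf D P Q h) = 0) →
  ∃ A ∈ T, br D f A = PowerSeries.coeff j (vf D P Q h)

def Rec0S : Prop := ∀ (S : Type) [CommRing S] [Algebra ℂ S] (D : Fin 2 → Derivation ℂ S S) (f : S)
  (P Q : PowerSeries S) (V : AddSubgroup S), Amb D f P Q → f ∈ V →
  (∀ (k : ℕ) (h : PowerSeries S), InS (V : Set S) h → PowerSeries.constantCoeff h = f →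
    (∀ i < k, PowerSeries.coeff i (vf D P Q h) = 0) →
    ∃ A ∈ V, br D f A = PowerSeries.coeff k (vf D P Q h)) →
  ∃ h, InS (V : Set S) h ∧ PowerSeries.constantCoeff h = f ∧ vf D P Q h = 0

def RecS : Prop := ∀ (S : Type) [CommRing S] [Algebra ℂ S] (D : Fin 2 → Derivation ℂ S S) (f : S)
  (P Q : PowerSeries S) (T : Subalgebra ℂ S) (V W : AddSubgroup S), Amb D f P Q → Sub D f T →
  (∃ H, InS (T : Set S) H ∧ PowerSeries.constantCoeff H = f ∧ vf D P Q H = 0) → f ∈ V →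
  (∀ v ∈ V, v ∈ T) →
  (∀ k, ∀ v ∈ V, PowerSeries.coeff k P * D 0 v + PowerSeries.coeff k Q * D 1 v ∈ W) →
  (∀ A ∈ T, br D f A ∈ W → ∃ A' ∈ V, br D f A' = br D f A) →
  ∃ h, InS (V : Set S) h ∧ PowerSeries.constantCoeff h = f ∧ vf D P Q h = 0

def GdivS : Prop := ∀ (S : Type) [CommRing S] [Algebra ℂ S] (D : Fin 2 → Derivation ℂ S S) (f : S)
  (P Q : PowerSeries S) (U : Set S) (W : AddSubgroup S) (h : PowerSeries S), Amb D f P Q →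
  Sub D f ⊤ → PowerSeries.constantCoeff h = f → vf D P Q h = 0 →
  (∀ k, PowerSeries.coeff k P ∈ W ∧ PowerSeries.coeff k Q ∈ W) →
  (∀ c, c * D 0 f ∈ W → c * D 1 f ∈ W → c ∈ U) →
  (∀ u ∈ U, ∀ k i, u * D i (PowerSeries.coeff k h) ∈ W) →
  ∃ g, InS U g ∧ PowerSeries.constantCoeff g = 1 ∧ P = g * cd (D 1) h ∧ Q = -(g * cd (D 0) h)

/-- A chart: extra derivations `δ` (in the logarithms) that kill the first integrals of `D`. -/
structure Cht {S : Type} [CommRing S] [Algebra ℂ S] (D : Fin 2 → Derivation ℂ S S) (f : S)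
    (P Q : PowerSeries S) (T : Subalgebra ℂ S) {ι : Type} (δ : ι → Derivation ℂ S S) : Prop where
  amb : Amb D f P Q
  sub : Sub D f T
  ne : D 0 f ≠ 0
  cD : ∀ m i A, δ m (D i A) = D i (δ m A)
  cδ : ∀ m n A, δ m (δ n A) = δ n (δ m A)
  kf : ∀ m, δ m f = 0
  kP : ∀ m, cd (δ m) P = 0
  kQ : ∀ m, cd (δ m) Q = 0
  cl : ∀ m, ∀ A ∈ T, δ m A ∈ T
  ker : ∀ A ∈ T, br D f A = 0 → ∀ m, δ m A = 0

def IifS : Prop := ∀ (S : Type) [CommRing S] [IsDomain S] [Algebra ℂ S]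
  (D : Fin 2 → Derivation ℂ S S) (f : S) (P Q : PowerSeries S) (T : Subalgebra ℂ S) (ι : Type)
  (δ : ι → Derivation ℂ S S), Cht D f P Q T δ → ∀ h g : PowerSeries S, InS (T : Set S) h →
  PowerSeries.constantCoeff h = f → InS (T : Set S) g → PowerSeries.constantCoeff g = 1 →
  P = g * cd (D 1) h → Q = -(g * cd (D 0) h) →
  (∀ m n, cd (δ n) (g * cd (δ m) h) = 0) ∧
  (∀ m, vf D P Q (g * cd (δ m) h) = g * cd (δ m) h * (cd (D 0) P + cd (D 1) Q)) ∧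
  ∀ m, cd (δ m) h ≠ 0 → ∀ F G : PowerSeries S, InS (T : Set S) F → InS (T : Set S) G →
    (∀ n, cd (δ n) F = 0) → (∀ n, cd (δ n) G = 0) →
    vf D P Q F = F * (cd (D 0) P + cd (D 1) Q) → vf D P Q G = G * (cd (D 0) P + cd (D 1) Q) →
    ∀ i, F * cd (D i) G = G * cd (D i) F

def PoincS : Prop := ∀ (T : Type) [CommRing T] [Algebra ℚ T] (ι : Type) [Fintype ι],
  (∀ w : ι → MvPolynomial ι T, (∀ m n, pderiv n (w m) = pderiv m (w n)) →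
    ∃ A, ∀ m, pderiv m A = w m) ∧
  ∀ Z : MvPolynomial ι T, (∀ m, pderiv m Z = 0) → Z = C (coeff 0 Z)

/-! ### Polynomial facts -/

/-- Sylvester over a field. -/
def Syl0S : Prop := ∀ (K : Type) [Field K] (d : ℕ) (G H : Pl K), 1 ≤ d → G.IsHomogeneous d →
  H.IsHomogeneous d → IsRelPrime G H → ∀ m : Fin 2 →₀ ℕ, m 0 + m 1 = 2 * d - 1 →
  ∃ α β : Pl K, α.IsHomogeneous (d - 1) ∧ β.IsHomogeneous (d - 1) ∧ monomial m 1 = α * G + β * H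

/-- Sylvester near a point. -/
def SylaS : Prop := ∀ (A : Type) [CommRing A] [Algebra ℂ A] (e : A →ₐ[ℂ] ℂ) (d : ℕ) (G H : Pl A),
  1 ≤ d → G.IsHomogeneous d → H.IsHomogeneous d →
  IsRelPrime (MvPolynomial.map e.toRingHom G) (MvPolynomial.map e.toRingHom H) →
  ∃ Δ : A, e Δ = 1 ∧ ∀ m : Fin 2 →₀ ℕ, m 0 + m 1 = 2 * d - 1 →
    ∃ α β : Pl A, α.IsHomogeneous (d - 1) ∧ β.IsHomogeneous (d - 1) ∧
      monomial m Δ = α * G + β * H

/-- The two partial derivatives of a product of pairwise independent linear forms are coprime. -/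
def CoprS : Prop := ∀ (K : Type) [Field K] [CharZero K] (d : ℕ) (a b : Fin (d + 1) → K), 1 ≤ d →
  (∀ i j, i ≠ j → a i * b j - a j * b i ≠ 0) →
  IsRelPrime (pderiv 0 (∏ m, (C (a m) * X 0 + C (b m) * X 1) : Pl K))
    (pderiv 1 (∏ m, (C (a m) * X 0 + C (b m) * X 1) : Pl K))

/-- Sylvester for an arrangement with directions in a field and constant terms in an algebra. -/
def SylgS : Prop := ∀ (K Λ : Type) [Field K] [CharZero K] [CommRing Λ] [Algebra K Λ] (d : ℕ)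
  (a b : Fin (d + 1) → K) (u : Fin (d + 1) → Λ), 1 ≤ d →
  (∀ i j, i ≠ j → a i * b j - a j * b i ≠ 0) →
  (∏ m, (C (algebraMap K Λ (a m)) * X 0 + C (algebraMap K Λ (b m)) * X 1 + C (u m)) :
    Pl Λ).totalDegree ≤ d + 1 ∧
  Syl d (∏ m, (C (algebraMap K Λ (a m)) * X 0 + C (algebraMap K Λ (b m)) * X 1 + C (u m)) : Pl Λ)

/-- Generators of the Brieskorn module with degree control, and a monic `q` with `q(f) ∈ J`. -/
def GensS : Prop := ∀ (Λ : Type) [CommRing Λ] [Algebra ℚ Λ] (d : ℕ) (f : Pl Λ), 1 ≤ d →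
  f.totalDegree ≤ d + 1 → Syl d f →
  (∀ (n : ℕ) (b : Pl Λ), b.totalDegree ≤ n →
    ∃ (c : (Fin 2 →₀ ℕ) → Polynomial Λ) (A : Pl Λ), (∀ m, (d + 1) * (c m).natDegree ≤ n) ∧
      b = ∑ m ∈ mon (2 * d - 2), Polynomial.aeval f (c m) * monomial m 1
        + (pderiv 1 f * pderiv 0 A - pderiv 0 f * pderiv 1 A)) ∧
  ∃ (q : Polynomial Λ) (Y0 Y1 : Pl Λ), q.Monic ∧
    Polynomial.aeval f q = Y0 * pderiv 0 f + Y1 * pderiv 1 f

variable {d : ℕ}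

/-- Facts on the lines. -/
structure Lin (l : Fin (d + 1) → ℂ × ℂ × ℂ) : Prop where
  prime : ∀ m, Prime (lin (l m))
  ndvd : ∀ m n, m ≠ n → ¬ lin (l m) ∣ lin (l n)
  ne : ff l ≠ 0
  deg : (ff l).totalDegree = d + 1
  top : homogeneousComponent (d + 1) (ff l) = ∏ m, (C (l m).1 * X 0 + C (l m).2.1 * X 1)
  bet : ∀ n, lin (l n) * bet l n = DP l (lin (l n))
  betsum : ∑ n, H20.bet l n = 0
  wf : ∀ n, gI l {n} * (C (l n).1 * pderiv 1 (ff l) - C (l n).2.1 * pderiv 0 (ff l)) =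
    ff l * H20.bet l n
  wdiv : ∀ n, C (l n).1 * pderiv 1 (gI l {n}) - C (l n).2.1 * pderiv 0 (gI l {n}) = H20.bet l n
  wgam : ∀ m n, lin (l m) * gam l m n =
    C ((l n).1 * (l m).2.1 - (l m).1 * (l n).2.1) * gI l {n}
  aevalinj : Function.Injective (Polynomial.aeval (ff l) : Polynomial ℂ →ₐ[ℂ] Poly)
  aevaldeg : ∀ c : Polynomial ℂ,
    (Polynomial.aeval (ff l) c).totalDegree = (d + 1) * c.natDegree
  gamdeg : ∀ m n, (gam l m n).totalDegree ≤ d - 1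
  betdeg : ∀ n, (H20.bet l n).totalDegree ≤ d - 1
  node : ∀ i j, i ≠ j → ∃ p, Node l i j p
  nodeoff : ∀ i j p, Node l i j p → ∀ m, m ≠ i → m ≠ j → eval p (lin (l m)) ≠ 0
  nodecrit : ∀ i j p, Node l i j p → Crit l p
  nodehess : ∀ i j p, Node l i j p → hess (tay p (ff l)) ≠ 0
  nodebet : ∀ i j p, Node l i j p → eval p (gam l i j) ≠ 0 ∧
    (∀ m n, eval p (gam l m n) =
      if m = i ∧ n = j then eval p (gam l i j) else if m = j ∧ n = i then -eval p (gam l i j)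
      else 0) ∧
    ∀ n, eval p (H20.bet l n) =
      if n = j then eval p (gam l i j) else if n = i then -eval p (gam l i j) else 0
  cls : ∀ p, Crit l p → Face l p ∨ ∃ i j, Node l i j p
  resker : ∀ i r, res l i r = 0 ↔ lin (l i) ∣ r
  resder : ∀ i r, res l i (C (l i).2.1 * pderiv 0 r - C (l i).1 * pderiv 1 r) =
    Polynomial.derivative (res l i r)
  reslin : ∀ i m, res l i (lin (l m)) =
    Polynomial.C ((l m).1 * (l i).2.1 - (l m).2.1 * (l i).1) * Polynomial.X +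
      Polynomial.C ((l m).2.2 - (l m).2.1 * (l i).2.2 / (l i).2.1)
  reseval : ∀ i p, eval p (lin (l i)) = 0 → ∀ r, (res l i r).eval (p 0 / (l i).2.1) = eval p r
  ressurj : ∀ i, Function.Surjective (res l i)
  glue : ∀ ρ : Fin (d + 1) → Poly, (∀ i j p, Node l i j p → eval p (ρ i) = eval p (ρ j)) →
    ∃ A : Poly, ∀ i, lin (l i) ∣ ρ i - A

/-- Facts on the Jacobian ideal. -/
structure Jac (l : Fin (d + 1) → ℂ × ℂ × ℂ) : Prop where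
  topd : ∀ i, homogeneousComponent d (pderiv i (ff l)) =
    pderiv i (homogeneousComponent (d + 1) (ff l))
  cop : IsRelPrime (homogeneousComponent d (pderiv 0 (ff l)))
    (homogeneousComponent d (pderiv 1 (ff l)))
  degd : ∀ i, (pderiv i (ff l)).totalDegree = d
  ned : ∀ i, pderiv i (ff l) ≠ 0
  syz : ∀ a b : Poly, a * pderiv 0 (ff l) + b * pderiv 1 (ff l) = 0 →
    ∃ c, a = c * pderiv 1 (ff l) ∧ b = -(c * pderiv 0 (ff l))
  hb : ∀ (n : ℕ) (Y0 Y1 : Poly),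
    (Y0 * pderiv 0 (ff l) + Y1 * pderiv 1 (ff l)).totalDegree ≤ n + d →
    ∃ Z0 Z1 : Poly, Z0.totalDegree ≤ n ∧ Z1.totalDegree ≤ n ∧
      Z0 * pderiv 0 (ff l) + Z1 * pderiv 1 (ff l) = Y0 * pderiv 0 (ff l) + Y1 * pderiv 1 (ff l)
  syl : Syl d (ff l)

/-- Genericity of the critical points. -/
structure Mor (l : Fin (d + 1) → ℂ × ℂ × ℂ) : Prop where
  nd : ∀ p, Crit l p → hess (tay p (ff l)) ≠ 0
  inj : ∀ p p', Face l p → Face l p' → eval p (ff l) = eval p' (ff l) → p = p'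
  rad : ∀ b : Poly, (∀ p, Crit l p → eval p b = 0) →
    ∃ Y0 Y1, b = Y0 * pderiv 0 (ff l) + Y1 * pderiv 1 (ff l)
  fin : {p | Face l p}.Finite

def LinS : Prop := ∀ (d : ℕ) (l : Fin (d + 1) → ℂ × ℂ × ℂ), Geo l → Lin l

def JacS : Prop := ∀ (d : ℕ) (l : Fin (d + 1) → ℂ × ℂ × ℂ), Geo l → Lin l → Jac l

def MorS : Prop := ∀ (d : ℕ) (l : Fin (d + 1) → ℂ × ℂ × ℂ), Geo l → Lin l → Jac l → Fld l → Mor l

def FldS : Prop := ∀ (d : ℕ) (l : Fin (d + 1) → ℂ × ℂ × ℂ), 2 ≤ d →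
  AlgebraicIndependent ℚ (coef l) → Geo l ∧ Nonempty (Fld l)

/-! ### The ring with logarithms -/

/-- Identities between the derivations and the substitutions. -/
structure Bas (l : Fin (d + 1) → ℂ × ℂ × ℂ) : Prop where
  dom : IsDomain (BB l)
  cinj : Function.Injective (cB l)
  iinj : Function.Injective (iB l)
  clear : ∀ A : BB l, ∃ (N : ℕ) (Z : RL d), iB l Z = cB l (ff l) ^ N * A
  unit : IsUnit (cB l (ff l))
  comm : ∀ A, dB l 0 (dB l 1 A) = dB l 1 (dB l 0 A)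
  cL : ∀ m i A, pderiv m (dB l i A) = dB l i (pderiv m A)
  LL : ∀ m n (A : BB l), pderiv m (pderiv n A) = pderiv n (pderiv m A)
  Lc : ∀ m r, pderiv m (cB l r) = 0
  Li : ∀ m Z, pderiv m (iB l Z) = iB l (pderiv m Z)
  DL : ∀ m A, pderiv m (DB l A) = DB l (pderiv m A)
  Dc : ∀ r, DB l (cB l r) = cB l (DP l r)
  DX : ∀ m, DB l (X m) = cB l (bet l m)
  Di : ∀ Z, DB l (iB l Z) = iB l (H20.DL l Z)
  sD : ∀ i A, subS l i (DB l A) = DB l (subS l i A)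
  sI : ∀ i A, subS l i A ∈ SI l {i}
  sfix : ∀ i, ∀ A ∈ SI l {i}, subS l i A = A
  pD : ∀ A, subP l (DB l A) = DB l (subP l A)
  pP : ∀ A, subP l A ∈ RP l
  ps : ∀ i A, subP l (subS l i A) = subP l A
  psum : ∀ A ∈ RP l, ∑ m, pderiv m A = 0
  pd : ∀ i, ∀ A ∈ RP l, dB l i A ∈ RP l
  pL : ∀ m, ∀ A ∈ RP l, pderiv m A ∈ RP l
  pc : ∀ t, C t ∈ RP l

/-- Division and closure properties of the charts. -/
structure Dv (l : Fin (d + 1) → ℂ × ℂ × ℂ) : Prop where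
  top : Sub (dB l) (cB l (ff l)) ⊤
  si : ∀ I, Sub (dB l) (cB l (ff l)) (SI l I)
  rp : Sub (dB l) (cB l (ff l)) (RP l)
  siL : ∀ I m, ∀ A ∈ SI l I, pderiv m A ∈ SI l I
  ric : ∀ I r, cB l r ∈ RI l I
  riX : ∀ I m, m ∉ I → X m ∈ RI l I
  rid : ∀ I i, ∀ A ∈ RI l I, dB l i A ∈ RI l I
  riL : ∀ I m, ∀ A ∈ RI l I, pderiv m A ∈ RI l I
  rii : ∀ I Z, iB l Z ∈ SI l I → iB l Z ∈ RI l I
  ridiv : ∀ I c, c * cB l (pderiv 0 (ff l)) ∈ RI l I → c * cB l (pderiv 1 (ff l)) ∈ RI l I →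
    c ∈ RI l I
  riall : ∀ A, (∀ i, A ∈ RI l {i}) → ∃ r, A = cB l r
  riuniv : ∀ A ∈ RI l Finset.univ, ∃ r, A = cB l r
  rdc : ∀ n (r : Poly), r.totalDegree ≤ n → cB l r ∈ RD l n
  rdc' : ∀ n (r : Poly), cB l r ∈ RD l n → r.totalDegree ≤ n
  rdmul : ∀ n k, ∀ A ∈ RD l n, ∀ B ∈ RD l k, A * B ∈ RD l (n + k)
  rdd : ∀ n i, ∀ A ∈ RD l (n + 1), dB l i A ∈ RD l n
  rdL : ∀ n m, ∀ A ∈ RD l n, pderiv m A ∈ RD l n
  rddiv : ∀ c, c * cB l (pderiv 0 (ff l)) ∈ RD l d → c * cB l (pderiv 1 (ff l)) ∈ RD l d →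
    c ∈ RD l 0
  rhdiv : ∀ c, c * cB l (pderiv 0 (ff l)) ∈ RH l d → c * cB l (pderiv 1 (ff l)) ∈ RH l d →
    c ∈ RH l 0

def BasS : Prop := ∀ (d : ℕ) (l : Fin (d + 1) → ℂ × ℂ × ℂ), Geo l → Lin l → Bas l

def DvS : Prop := ∀ (d : ℕ) (l : Fin (d + 1) → ℂ × ℂ × ℂ), Geo l → Lin l → Jac l → Bas l → Dv l

/-- Flat sections on a line. -/
def OneS : Prop := ∀ (ι : Type) [Fintype ι] [DecidableEq ι] (J : Finset ι) (α γ : ι → ℂ)
  (n N : ℕ) (A : MvPolynomial ι (Polynomial ℂ)), J.Nonempty → 1 ≤ n → (∀ m ∈ J, α m ≠ 0) →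
  (∀ m ∈ J, ∀ k ∈ J, m ≠ k → α m * γ k ≠ α k * γ m) →
  (∀ e, (n : Polynomial ℂ) *
      ((∏ m ∈ J, (Polynomial.C (α m) * Polynomial.X + Polynomial.C (γ m))) *
          Polynomial.derivative (coeff e A) +
        ∑ m ∈ J, Polynomial.C (α m) *
          (∏ k ∈ J.erase m, (Polynomial.C (α k) * Polynomial.X + Polynomial.C (γ k))) *
          coeff e (pderiv m A)) =
      (N : Polynomial ℂ) * Polynomial.derivative
        (∏ m ∈ J, (Polynomial.C (α m) * Polynomial.X + Polynomial.C (γ m))) * coeff e A) →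
  (∀ m ∈ J, pderiv m A = 0) ∧ ∀ e, coeff e A = 0 ∨ (n ∣ N ∧ ∃ c : ℂ, coeff e A =
    Polynomial.C c * (∏ m ∈ J, (Polynomial.C (α m) * Polynomial.X + Polynomial.C (γ m))) ^ (N / n))

def StepS : Prop := ∀ (d : ℕ) (l : Fin (d + 1) → ℂ × ℂ × ℂ), Geo l → Lin l → Bas l →
  ∀ I : Finset (Fin (d + 1)), I.Nonempty → ∀ A ∈ RI l I, ∀ b ∈ RI l I,
    DB l A = cB l (ff l) * b → ∃ c : ℂ, ∃ A' ∈ RI l I, A = cB l (C c) + cB l (ff l) * A'

def DegS : Prop := ∀ (d : ℕ) (l : Fin (d + 1) → ℂ × ℂ × ℂ), Geo l → Lin l →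
  ∀ (n : ℕ) (Z : RL d), ∑ m, pderiv m Z = 0 →
    (∀ e, (coeff e (DL l Z)).totalDegree ≤ n + d - 1) →
    ∃ c : Polynomial ℂ, ∀ e, (coeff e (Z - C (Polynomial.aeval (ff l) c))).totalDegree ≤ n

/-- Torsion freeness and kernels. -/
structure Tf (l : Fin (d + 1) → ℂ × ℂ × ℂ) : Prop where
  tf : ∀ I : Finset (Fin (d + 1)), I.Nonempty → ∀ A ∈ SI l I, DB l A ∈ RI l I →
    ∃ A' ∈ RI l I, DB l A' = DB l A
  ker : ∀ I : Finset (Fin (d + 1)), I.Nonempty → ∀ A ∈ SI l I, DB l A = 0 → ∀ m, pderiv m A = 0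
  kerp : ∀ A ∈ RP l, DB l A = 0 → ∀ m, pderiv m A = 0
  kerr : ∀ r : Poly, DP l r = 0 → ∃ c : Polynomial ℂ, r = Polynomial.aeval (ff l) c ∧
    (d + 1) * c.natDegree ≤ r.totalDegree
  tfi : ∀ i A, DB l A ∈ RI l {i} → ∃ A' ∈ RI l {i}, DB l A' = DB l A
  tfd : ∀ A, DB l A ∈ RD l (2 * d) → ∃ A' ∈ RD l (d + 1), DB l A' = DB l A
  tfh : ∀ A ∈ SI l Finset.univ, DB l A ∈ RH l (2 * d) → ∃ A' ∈ RH l (d + 1), DB l A' = DB l A

def TfS : Prop := ∀ (d : ℕ) (l : Fin (d + 1) → ℂ × ℂ × ℂ), Geo l → Lin l → Bas l → Dv l → Tf l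

def SocS : Prop := ∀ (d : ℕ) (l : Fin (d + 1) → ℂ × ℂ × ℂ), Lin l → Bas l → Dv l → Tf l →
  ∀ I : Finset (Fin (d + 1)), I.Nonempty → ∀ b ∈ SI l I,
    (∀ m, ∃ A ∈ SI l I, DB l A = pderiv m b) →
    ∃ (N : ℕ) (A : BB l) (b0 : Poly) (c : CC d), A ∈ RI l I ∧ (∀ m n, c m n = -c n m) ∧
      (∀ m ∈ I, ∀ n, c m n = 0) ∧
      cB l (ff l) ^ N * b = DB l A + cB l b0 +
        ∑ m, ∑ n, cB l (Polynomial.aeval (ff l) (c m n)) * (X m * cB l (bet l n))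

def WronS : Prop := ∀ (d : ℕ) (l : Fin (d + 1) → ℂ × ℂ × ℂ), Bas l →
  ∀ F G : PowerSeries (BB l), InS (SI l Finset.univ : Set (BB l)) F →
    InS (SI l Finset.univ : Set (BB l)) G → PowerSeries.constantCoeff G ≠ 0 →
    (∀ i, F * cd (dB l i) G = G * cd (dB l i) F) →
    ∃ c : PowerSeries ℂ, F = PowerSeries.map (algebraMap ℂ (BB l)) c * G

/-! ### Local series -/

def LgS : Prop := ∀ (d : ℕ) (l : Fin (d + 1) → ℂ × ℂ × ℂ) (p : Fin 2 → ℂ) (m : Fin (d + 1)),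
  cc (lg l p m) = 0 ∧ (eval p (lin (l m)) ≠ 0 →
    ∀ i, tay p (lin (l m)) * dS i (lg l p m) = MvPowerSeries.C (dir i (l m)))

def EmbS : Prop := ∀ (d : ℕ) (l : Fin (d + 1) → ℂ × ℂ × ℂ), Bas l → Dv l →
  ∀ (I : Finset (Fin (d + 1))) (p : Fin 2 → ℂ), (∀ m, m ∉ I → eval p (lin (l m)) ≠ 0) →
  ∃ ε : BB l →ₗ[ℂ] Ser ℂ, (∀ A ∈ RI l I, ∀ B ∈ RI l I, ε (A * B) = ε A * ε B) ∧
    (∀ r, ε (cB l r) = tay p r) ∧ (∀ m, m ∉ I → ε (X m) = lg l p m) ∧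
    ∀ i, ∀ A ∈ RI l I, ε (dB l i A) = dS i (ε A)

def NablaS : Prop := ∀ (d : ℕ) (l : Fin (d + 1) → ℂ × ℂ × ℂ), Lin l →
  ∀ (p : Fin 2 → ℂ) (b Y0 Y1 : Poly) (c : CC d),
  (∀ m n, c m n ≠ 0 → eval p (lin (l m)) ≠ 0) →
  Y0 * pderiv 0 (ff l) + Y1 * pderiv 1 (ff l) = ff l * b →
  ∃ Z0 Z1 : Ser ℂ, Z0 * dS 0 (tay p (ff l)) + Z1 * dS 1 (tay p (ff l)) =
      tay p (ff l) * ev l p b c ∧
    dS 0 Z0 + dS 1 Z1 = ev l p (th0 l Y0 Y1 c) (th1 c)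

/-- The partial derivatives of a Morse series are a regular sequence that generates `𝔪`. -/
def RegS : Prop := ∀ φ : Ser ℂ, (∀ i, cc (dS i φ) = 0) → hess φ ≠ 0 →
  Sub dS φ ⊤ ∧ ∀ G, cc G = 0 → ∃ Y0 Y1, G = Y0 * dS 0 φ + Y1 * dS 1 φ

/-- Chain rule for substitution. -/
def SubstS : Prop := ∀ (K : Type) [CommRing K] (σ : Ser K) (r : PowerSeries K) (i : Fin 2),
  cc σ = 0 → dS i (PowerSeries.subst σ r) =
    PowerSeries.subst σ (PowerSeries.derivative K r) * dS i σ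

/-- The graded facts for a traceless diagonalisable linear field. -/
def GradS : Prop := ∀ (K : Type) [CommRing K] [Algebra ℚ K] (a b c lam s t : K), IsUnit lam →
  lam ^ 2 = a ^ 2 + b * c → IsUnit (b * s ^ 2 - 2 * a * s * t - c * t ^ 2) →
  ∀ (n : ℕ) (L : Pl K → Pl K) (q : Pl K),
  (∀ A, L A = (C a * X 0 + C b * X 1) * pderiv 0 A + (C c * X 0 - C a * X 1) * pderiv 1 A) →
  q = C c * X 0 ^ 2 - 2 * C a * X 0 * X 1 - C b * X 1 ^ 2 →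
  (∀ G : Pl K, G.IsHomogeneous n → ∃ (A : Pl K) (ρ : K), A.IsHomogeneous n ∧
    (Odd n → ρ = 0) ∧ G = L A + C ρ * q ^ (n / 2)) ∧
  (∀ A : Pl K, A.IsHomogeneous n → L A = 0 → ∃ ρ : K, (Odd n → ρ = 0) ∧ A = C ρ * q ^ (n / 2)) ∧
  ∀ (A : Pl K) (ρ : K) (k : ℕ), L A = C ρ * q ^ k → ρ = 0

def LocaS : Prop := ∀ (K : Type) [CommRing K] [Algebra ℚ K] (P Q σ : Ser K) (u : K), Diag P Q →
  IsUnit u → Ord 3 (σ - MvPowerSeries.C u * qf P Q) → ∀ (n : ℕ) (G : Ser K), Ord n G →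
  ∃ (A : Ser K) (r : PowerSeries K), Ord n A ∧ (∀ k, 2 * k < n → PowerSeries.coeff k r = 0) ∧
    G = P * dS 0 A + Q * dS 1 A + PowerSeries.subst σ r

def LocbS : Prop := ∀ (K : Type) [Field K] [CharZero K] (P Q h : Ser K), FCs P Q h →
  cc (dS 1 Q) = -cc (dS 0 P) ∧ (Diag P Q → ∀ (A : Ser K) (k : ℕ) (ρ : K),
    Ord (2 * k + 1) (P * dS 0 A + Q * dS 1 A - MvPowerSeries.C ρ * qf P Q ^ k) → ρ = 0)

def NfS : Prop := ∀ (Λ Ω : Type) [CommRing Λ] [Algebra ℚ Λ] [Field Ω] [CharZero Ω] (j : Λ →+* Ω)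
  (P Q : Ser Λ) (h : Ser Ω) (lam s t : Λ), Function.Injective j →
  FCs (MvPowerSeries.map j P) (MvPowerSeries.map j Q) h → IsUnit lam → lam ^ 2 = -jac P Q →
  IsUnit (cc (dS 1 P) * s ^ 2 - 2 * cc (dS 0 P) * s * t - cc (dS 0 Q) * t ^ 2) →
  ∃ h' : Ser Λ, FCs P Q h'

/-- The period map at a Morse point. -/
def PerS : Prop := ∀ φ : Ser ℂ, (∀ i, cc (dS i φ) = 0) → hess φ ≠ 0 →
  ∃ r : Ser ℂ →ₗ[ℂ] PowerSeries ℂ, (∀ G, r G = 0 ↔ ∃ A, br dS φ A = G) ∧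
    (∀ G, r (φ * G) = (PowerSeries.C (cc φ) + PowerSeries.X) * r G) ∧
    (∀ G, PowerSeries.constantCoeff (r G) = cc G) ∧
    ∀ Y0 Y1, r (dS 0 Y0 + dS 1 Y1) =
      PowerSeries.derivative ℂ (r (Y0 * dS 0 φ + Y1 * dS 1 φ))

/-! ### From one singular point to all -/

def C8aS : Prop := ∀ (d : ℕ) (l : Fin (d + 1) → ℂ × ℂ × ℂ), Geo l → Lin l → Jac l →
  ∀ (i0 : Fin (d + 1)) (α : ℂ) (b Y0 Y1 : Poly) (c : CC d), (∀ m n, c m n = -c n m) →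
  (∀ n, c i0 n = 0) → Y0 * pderiv 0 (ff l) + Y1 * pderiv 1 (ff l) = ff l * b →
  (∀ m n, th1 c m n = α • c m n) → Triv l (th0 l Y0 Y1 c - α • b) →
  (c = 0 ∧ Triv l b) ∨ (α ≠ 1 ∧ ∃ (c' : CC d) (Z0 Z1 : Poly) (ε : Fin (d + 1) → ℂ),
    (∀ m n, c m n = Polynomial.X * c' m n) ∧
    b = ∑ m, ε m • bet l m + (Z0 * pderiv 0 (ff l) + Z1 * pderiv 1 (ff l)) ∧
    Triv l ((1 - α) • b + ff l * th0 l Z0 Z1 c'))

def C8S : Prop := ∀ (d : ℕ) (l : Fin (d + 1) → ℂ × ℂ × ℂ), Geo l → Lin l → Jac l → Mor l →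
  ∀ N : Submodule ℂ (Poly × CC d), (∀ b, Triv l b → (b, 0) ∈ N) →
  (∀ b c, (ff l * b, fun m n => Polynomial.X * c m n) ∈ N → (b, c) ∈ N) →
  (∀ b c, (b, c) ∈ N → ∀ p, Face l p → eval p b = 0) →
  (∀ b c Y0 Y1, (b, c) ∈ N → Y0 * pderiv 0 (ff l) + Y1 * pderiv 1 (ff l) = ff l * b →
    (th0 l Y0 Y1 c, th1 c) ∈ N) →
  ∀ (i0 : Fin (d + 1)) b c, (b, c) ∈ N → (∀ m n, c m n = -c n m) → (∀ n, c i0 n = 0) →
    c = 0 ∧ Triv l b

def C9S : Prop := ∀ (d : ℕ) (l : Fin (d + 1) → ℂ × ℂ × ℂ), Geo l → Lin l → Jac l → Mor l →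
  ∀ i j p, Node l i j p → ∃ p', Face l p' ∧ ∀ (b : Poly) (c : CC d),
    (∀ n, c i n = 0 ∧ c j n = 0 ∧ c n i = 0 ∧ c n j = 0) →
    Ex l p (ev l p b c) → Ex l p' (ev l p' b c)

/-- `N` is stable under the connection `c ↦ q δ c + c Θ`. -/
def Stab {E A : Type} [CommRing E] [Fintype A] (δ : E → E) (q : Polynomial E)
    (Θ : A → A → Polynomial E) (N : Submodule (Polynomial E) (A → Polynomial E)) : Prop :=
  ∀ c c' : A → Polynomial E, (∀ a n, (c' a).coeff n = δ ((c a).coeff n)) → c ∈ N →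
    (fun b => q * c' b + ∑ a, c a * Θ a b) ∈ N

/-- `N` is saturated. -/
def Satu {E A : Type} [CommRing E] (N : Submodule (Polynomial E) (A → Polynomial E)) : Prop :=
  ∀ (g : Polynomial E) (c : A → Polynomial E), g ≠ 0 → g • c ∈ N → c ∈ N

def GmS : Prop := ∀ (d : ℕ) (l : Fin (d + 1) → ℂ × ℂ × ℂ), Geo l → Lin l → ∀ (F : Fld l) i,
  ∃ (q : Polynomial ℂ) (Θ : GI d → GI d → Polynomial ℂ), q.Monic ∧
    (∀ n, q.coeff n ∈ Algebra.adjoin (F.k i) {(l i).2.2}) ∧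
    (∀ a b n, (Θ a b).coeff n ∈ Algebra.adjoin (F.k i) {(l i).2.2}) ∧
    ∀ p, Face l p → Stab (F.δ i) q Θ (Rel l p)

def EqvS : Prop := ∀ (d : ℕ) (l : Fin (d + 1) → ℂ × ℂ × ℂ) (θ : ℂ ≃+* ℂ),
  (∀ k, θ (coef l k) = coef l k) → ∀ p, Face l p →
    Face l (θ ∘ p) ∧ eval (θ ∘ p) (ff l) = θ (eval p (ff l)) ∧
    ∀ c, c ∈ Rel l p ↔ (fun a => (c a).map θ.toRingHom) ∈ Rel l (θ ∘ p)

/-- Derivations along a ring map vanish on algebraic extensions and on generated fields. -/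
def DeruS : Prop := ∀ (F E Ω : Type) [Field F] [CharZero F] [Field E] [Algebra F E] [Field Ω]
  (φ : E →+* Ω) (D : E → Ω), (∀ x y, D (x + y) = D x + D y) →
  (∀ x y, D (x * y) = φ x * D y + φ y * D x) → (∀ c, D (algebraMap F E c) = 0) →
  (∀ x, IsAlgebraic F x → D x = 0) ∧
  ∀ S : Set E, (∀ s ∈ S, D s = 0) → ∀ x ∈ IntermediateField.adjoin F S, D x = 0

def PuiS : Prop := ∀ (κ k E : Type) [Field κ] [IsAlgClosed κ] [CharZero κ] [Field k] [Field E]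
  [Algebra κ k] [Algebra k E] [Algebra κ E] [IsScalarTower κ k E] [FiniteDimensional k E] (v : k),
  Transcendental κ v → IntermediateField.adjoin κ {v} = ⊤ →
  ∃ (e : ℕ) (j : E →ₐ[κ] LaurentSeries κ), 0 < e ∧
    j (algebraMap k E v) = HahnSeries.single (e : ℤ) 1

def PvS : Prop := ∀ (A Ω R : Type) [Field A] [CharZero A] [Field Ω] [Fintype R]
  [Algebra (PowerSeries A) Ω] [IsFractionRing (PowerSeries A) Ω] (e : ℕ) (he : e ≠ 0)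
  (dτ : Ω → Ω) (σ : Ω →+* Ω) (ζ : A) (M : R → R → PowerSeries A) (W : Submodule Ω (R → Ω)),
  (∀ x y, dτ (x + y) = dτ x + dτ y) → (∀ x y, dτ (x * y) = x * dτ y + y * dτ x) →
  (∀ a, dτ (algebraMap (PowerSeries A) Ω a) =
    algebraMap (PowerSeries A) Ω (PowerSeries.derivative A a)) →
  ζ ^ e = 1 → (∀ a, σ (algebraMap (PowerSeries A) Ω a) =
    algebraMap (PowerSeries A) Ω (PowerSeries.rescale ζ a)) →
  (∀ w ∈ W, (fun b => dτ (w b) + ∑ a, w a * algebraMap (PowerSeries A) Ω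
    ((e : PowerSeries A) * PowerSeries.X ^ (e - 1) * PowerSeries.expand e he (M a b))) ∈ W) →
  ∀ w ∈ W, (fun b => σ (w b)) ∈ W

/-- `j` is a Puiseux embedding at `u = u0` and `σ` is the rotation `τ ↦ ζ τ`. -/
structure Place {κ E : Type} [Field κ] [Field E] [Algebra κ E] (u : E) (u0 ζ : κ) (e : ℕ)
    (j : E →ₐ[κ] LaurentSeries κ) (σ : LaurentSeries κ →+* LaurentSeries κ) : Prop where
  pos : 0 < e
  ju : j (u - algebraMap κ E u0) = HahnSeries.single (e : ℤ) 1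
  root : ζ ^ e = 1
  rot : ∀ a : PowerSeries κ, σ (algebraMap (PowerSeries κ) (LaurentSeries κ) a) =
    algebraMap (PowerSeries κ) (LaurentSeries κ) (PowerSeries.rescale ζ a)

def InertS : Prop := ∀ (κ k E A : Type) [Field κ] [CharZero κ] [Field k] [Field E] [Algebra κ k]
  [Algebra k E] [Algebra κ E] [IsScalarTower κ k E] [Algebra.IsAlgebraic k E] [Fintype A]
  (u : k) (δ : Derivation κ E E) (u0 ζ : κ) (e : ℕ) (j : E →ₐ[κ] LaurentSeries κ)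
  (σ : LaurentSeries κ →+* LaurentSeries κ) (g : E →+* E) (q : Polynomial E)
  (Θ : A → A → Polynomial E) (N : Submodule (Polynomial E) (A → Polynomial E)),
  IntermediateField.adjoin κ {u} = ⊤ → δ (algebraMap k E u) = 1 →
  Place (algebraMap k E u) u0 ζ e j σ → (∀ x, j (g x) = σ (j x)) → q.Monic →
  (∀ n, q.coeff n ∈ Algebra.adjoin κ {algebraMap k E u}) →
  (∀ a b n, (Θ a b).coeff n ∈ Algebra.adjoin κ {algebraMap k E u}) → Satu N → Stab δ q Θ N →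
  ∀ c ∈ N, (fun a => (c a).map g) ∈ N

def Eta1S : Prop := ∀ (κ k E : Type) [Field κ] [IsAlgClosed κ] [CharZero κ] [Field k] [Field E]
  [Algebra κ k] [Algebra k E] [Algebra κ E] [IsScalarTower κ k E] [FiniteDimensional k E]
  [IsGalois k E] (u : k) (δ : Derivation κ E E) (H : Subgroup (E ≃ₐ[k] E)),
  IntermediateField.adjoin κ {u} = ⊤ → δ (algebraMap k E u) = 1 → H.Normal →
  (∀ u0 ζ e j σ (g : E ≃ₐ[k] E), Place (algebraMap k E u) (u0 : κ) ζ e j σ →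
    (∀ x, j (g x) = σ (j x)) → g ∈ H) →
  ∀ b : E, (∀ g ∈ H, g b = b) → IsIntegral (Algebra.adjoin κ {algebraMap k E u}) b →
    IsIntegral (Algebra.adjoin κ {algebraMap k E u}) (δ b)

def Eta2S : Prop := ∀ (κ k E : Type) [Field κ] [IsAlgClosed κ] [CharZero κ] [Field k] [Field E]
  [Algebra κ k] [Algebra k E] [Algebra κ E] [IsScalarTower κ k E] [FiniteDimensional k E]
  [IsGalois k E] (u : k) (δ : Derivation κ E E),
  IntermediateField.adjoin κ {u} = ⊤ → δ (algebraMap k E u) = 1 →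
  ∀ b : E, (∀ N : ℕ, IsIntegral (Algebra.adjoin κ {algebraMap k E u}) (δ^[N] b)) →
    b ∈ Algebra.adjoin κ {algebraMap k E u}

def EtaleS : Prop := ∀ (κ k E : Type) [Field κ] [IsAlgClosed κ] [CharZero κ] [Field k] [Field E]
  [Algebra κ k] [Algebra k E] [Algebra κ E] [IsScalarTower κ k E] [FiniteDimensional k E]
  [IsGalois k E] (u : k) (δ : Derivation κ E E) (H : Subgroup (E ≃ₐ[k] E)),
  IntermediateField.adjoin κ {u} = ⊤ → δ (algebraMap k E u) = 1 → H.Normal →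
  (∀ u0 ζ e j σ (g : E ≃ₐ[k] E), Place (algebraMap k E u) (u0 : κ) ζ e j σ →
    (∀ x, j (g x) = σ (j x)) → g ∈ H) → H = ⊤

def UnrS : Prop := ∀ (κ : Subfield ℂ) (u : ℂ) (δ : Derivation ℤ ℂ ℂ) (A : Type) [Fintype A]
  (𝓜 : Set (Submodule (Polynomial ℂ) (A → Polynomial ℂ))) (q : Polynomial ℂ)
  (Θ : A → A → Polynomial ℂ), (∀ z : ℂ, IsAlgebraic κ z → z ∈ κ) → (∀ z ∈ κ, δ z = 0) →
  δ u = 1 → (∀ z : ℂ, IsAlgebraic (IntermediateField.adjoin κ {u}) z) → 𝓜.Finite → q.Monic →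
  (∀ n, q.coeff n ∈ Algebra.adjoin κ {u}) → (∀ a b n, (Θ a b).coeff n ∈ Algebra.adjoin κ {u}) →
  (∀ N ∈ 𝓜, Satu N) → (∀ N ∈ 𝓜, Stab δ q Θ N) →
  (∀ θ : ℂ ≃+* ℂ, (∀ z ∈ κ, θ z = z) → θ u = u → ∀ N ∈ 𝓜, ∃ N' ∈ 𝓜,
    ∀ c, c ∈ N ↔ (fun a => (c a).map θ.toRingHom) ∈ N') →
  ∀ θ : ℂ ≃+* ℂ, (∀ z ∈ κ, θ z = z) → θ u = u → ∀ N ∈ 𝓜, ∀ c ∈ N,
    (fun a => (c a).map θ.toRingHom) ∈ N

def GenS : Prop := ∀ (d : ℕ) (l : Fin (d + 1) → ℂ × ℂ × ℂ) (F : Fld l) (z : ℂ),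
  (∀ i (θ : ℂ ≃+* ℂ), (∀ y ∈ F.k i, θ y = y) → θ (l i).2.2 = (l i).2.2 → θ z = z) →
  ∀ θ : ℂ ≃+* ℂ, (∀ y ∈ F.k0, θ y = y) → (∀ i, θ (l i).2.2 = (l i).2.2) → θ z = z

def TransS : Prop := ∀ (d : ℕ) (l : Fin (d + 1) → ℂ × ℂ × ℂ), Geo l → ∀ (F : Fld l) p p',
  Face l p → Face l p' → ∃ θ : ℂ ≃+* ℂ, (∀ y ∈ F.k0, θ y = y) ∧
    (∀ i, θ (l i).2.2 = (l i).2.2) ∧ θ ∘ p = p'

/-- Exactness at one face gives exactness at every face. -/
def Ft (l : Fin (d + 1) → ℂ × ℂ × ℂ) : Prop := ∀ p p', Face l p → Face l p' →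
  ∀ (b : Poly) (c : CC d), Ex l p (ev l p b c) → Ex l p' (ev l p' b c)

def FtS : Prop := ∀ (d : ℕ) (l : Fin (d + 1) → ℂ × ℂ × ℂ), Geo l → Lin l → Jac l → Mor l →
  Fld l → Ft l

/-- Local exactness gives global exactness. -/
def Core (l : Fin (d + 1) → ℂ × ℂ × ℂ) : Prop := ∀ (I : Finset (Fin (d + 1))) (p : Fin 2 → ℂ),
  ((∃ i, I = {i} ∧ Face l p) ∨ ∃ i j, I = {i, j} ∧ Node l i j p) →
  ∀ (b : Poly) (c : CC d), (∀ m n, c m n = -c n m) → (∀ m ∈ I, ∀ n, c m n = 0) →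
  Ex l p (ev l p b c) → c = 0 ∧ ∃ (A : Poly) (e : Fin (d + 1) → Polynomial ℂ),
    (∀ m ∈ I, e m = 0) ∧ b = DP l A + ∑ m, Polynomial.aeval (ff l) (e m) * bet l m

def CoreS : Prop := ∀ (d : ℕ) (l : Fin (d + 1) → ℂ × ℂ × ℂ), Geo l → Lin l → Jac l → Mor l →
  Ft l → Core l

/-! ### The integrating factor -/

/-- A deformation of `df` of degree at most `d`. -/
structure Def (l : Fin (d + 1) → ℂ × ℂ × ℂ) (P Q : PowerSeries Poly) : Prop where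
  degP : ∀ k, (PowerSeries.coeff k P).totalDegree ≤ d
  degQ : ∀ k, (PowerSeries.coeff k Q).totalDegree ≤ d
  P0 : PowerSeries.constantCoeff P = pderiv 1 (ff l)
  Q0 : PowerSeries.constantCoeff Q = -pderiv 0 (ff l)

/-- A first integral with coefficients in `V`. -/
def Sol (l : Fin (d + 1) → ℂ × ℂ × ℂ) (P Q : PowerSeries Poly) (V : Set (BB l))
    (h : PowerSeries (BB l)) : Prop :=
  InS V h ∧ PowerSeries.constantCoeff h = cB l (ff l) ∧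
    vf (dB l) (PowerSeries.map (cB l) P) (PowerSeries.map (cB l) Q) h = 0

/-- A local first integral at the critical point `p`. -/
def LocSol (l : Fin (d + 1) → ℂ × ℂ × ℂ) (P Q : PowerSeries Poly) (p : Fin 2 → ℂ) : Prop :=
  Crit l p ∧ ∃ H : PowerSeries (Ser ℂ), PowerSeries.constantCoeff H = tay p (ff l) ∧
    vf dS (PowerSeries.map (tay p).toRingHom P) (PowerSeries.map (tay p).toRingHom Q) H = 0

/-- An inverse integrating factor with coefficients in `V`, without logarithms. -/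
def Iif (l : Fin (d + 1) → ℂ × ℂ × ℂ) (P Q : PowerSeries Poly) (V : Set (BB l))
    (F : PowerSeries (BB l)) : Prop :=
  InS V F ∧ InS (SI l Finset.univ : Set (BB l)) F ∧ PowerSeries.constantCoeff F ≠ 0 ∧
    vf (dB l) (PowerSeries.map (cB l) P) (PowerSeries.map (cB l) Q) F =
      F * (cd (dB l 0) (PowerSeries.map (cB l) P) + cd (dB l 1) (PowerSeries.map (cB l) Q))

/-- The Hamiltonian case. -/
def Ham (d : ℕ) (P Q : PowerSeries Poly) : Prop := ∃ (G : PowerSeries ℂ) (H : PowerSeries Poly),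
  (∀ k, (PowerSeries.coeff k H).totalDegree ≤ d + 1) ∧
  P = PowerSeries.map (C : ℂ →+* Poly) G * cd (dP 1) H ∧
  Q = -(PowerSeries.map (C : ℂ →+* Poly) G * cd (dP 0) H)

/-- A polynomial inverse integrating factor of degree `d + 1`. -/
def NonHam (l : Fin (d + 1) → ℂ × ℂ × ℂ) (P Q : PowerSeries Poly) : Prop :=
  ∃ (F : PowerSeries Poly) (α β : ℂ), α ≠ 0 ∧ (∀ k, (PowerSeries.coeff k F).totalDegree ≤ d + 1) ∧
    PowerSeries.constantCoeff F = C α * ff l + C β ∧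
    vf dP P Q F = F * (cd (dP 0) P + cd (dP 1) Q)

/-- All facts on the arrangement that the recursion uses. -/
structure All (l : Fin (d + 1) → ℂ × ℂ × ℂ) : Prop where
  geo : Geo l
  lin : Lin l
  jac : Jac l
  mor : Mor l
  bas : Bas l
  dv : Dv l
  tf : Tf l
  core : Core l

def SolS : Prop := ∀ (d : ℕ) (l : Fin (d + 1) → ℂ × ℂ × ℂ), All l → ∀ P Q p, Def l P Q →
  LocSol l P Q p → ∃ h, Sol l P Q Set.univ h

def HamS : Prop := ∀ (d : ℕ) (l : Fin (d + 1) → ℂ × ℂ × ℂ), All l → ∀ P Q, Def l P Q →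
  ((∃ h, Sol l P Q (SI l Finset.univ) h) → Ham d P Q) ∧
  ∀ (F : PowerSeries Poly) (β : ℂ), β ≠ 0 → PowerSeries.constantCoeff F = C β →
    vf dP P Q F = F * (cd (dP 0) P + cd (dP 1) Q) → Ham d P Q

def ChartS : Prop := ∀ (d : ℕ) (l : Fin (d + 1) → ℂ × ℂ × ℂ), All l → ∀ P Q, Def l P Q →
  (∃ h, Sol l P Q Set.univ h) → (¬ ∃ h, Sol l P Q (SI l Finset.univ) h) →
  (∀ i, ∃ F, Iif l P Q (RI l {i}) F) ∧ (∃ F, Iif l P Q (RD l (d + 1)) F) ∧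
  ∀ F G, Iif l P Q Set.univ F → Iif l P Q Set.univ G →
    ∀ i, F * cd (dB l i) G = G * cd (dB l i) F

def BthmS : Prop := ∀ (d : ℕ) (l : Fin (d + 1) → ℂ × ℂ × ℂ), All l → ∀ P Q, Def l P Q →
  (∃ h, Sol l P Q Set.univ h) → Ham d P Q ∨ NonHam l P Q

/-! ### Arcs -/

def ZarS : Prop := ∀ (d : ℕ) (A : Set (Fol d)), {C | IsComponent (zcl A) C}.Finite ∧
  ∀ C, IsComponent (zcl A) C → IsZClosed C ∧ ¬ Van C 1 ∧
    (∀ Φ Ψ, Van C (Φ * Ψ) → Van C Φ ∨ Van C Ψ) ∧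
    (∃ Ψ, ¬ Van C Ψ ∧ ∀ (v : Form d) (hv : v ≠ 0), Projectivization.mk ℂ v hv ∈ A →
      eval (coords (v : Poly × Poly)) Ψ ≠ 0 → Projectivization.mk ℂ v hv ∈ C) ∧
    ∀ Ψ, Van A Ψ → Van C Ψ

def OsgS : Prop := ∀ (U : Set (Fin 2 → ℂ)) (F : (Fin 2 → ℂ) → ℂ), IsOpen U →
  DifferentiableOn ℂ F U → ∀ v : Fin 2 → ℂ, DifferentiableOn ℂ (fun z => fderiv ℂ F z v) U

def TaylS : Prop := ∀ (w : Poly × Poly) (p : Fin 2 → ℂ), IsCenter w p → FC w.1 w.2 p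

def GenptS : Prop := ∀ (d : ℕ) (C : Set (Fol d)), IsComponent (zcl (Cent d)) C →
  ∃ (Ω : Type) (_ : Field Ω) (_ : Algebra ℂ Ω) (χ : MvPolynomial CI ℂ →ₐ[ℂ] Ω) (p : Fin 2 → Ω),
    (∀ Φ, χ Φ = 0 ↔ Van C Φ) ∧
    FC (formOf d (fun i => χ (X i)) true) (formOf d (fun i => χ (X i)) false) p

def ExpS : Prop := ∀ (κ O : Type) [Field κ] [CommRing O] [IsDomain O] [IsNoetherianRing O]
  [Algebra κ O] (χ : O →ₐ[κ] κ) (π : O), π ≠ 0 → (∀ b, χ b = 0 ↔ π ∣ b) →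
  ∃ E : O →ₐ[κ] PowerSeries κ, Function.Injective E ∧ E π = PowerSeries.X ∧
    ∀ b, PowerSeries.constantCoeff (E b) = χ b

def ArcS : Prop := ∀ (A : Type) [CommRing A] [IsDomain A] [Algebra ℂ A] [Algebra.FiniteType ℂ A]
  (e : A →ₐ[ℂ] ℂ) (Φ : A), Φ ≠ 0 → ∃ ψ : A →ₐ[ℂ] PowerSeries ℂ,
    (∀ a, PowerSeries.constantCoeff (ψ a) = e a) ∧ ψ Φ ≠ 0

def IntegS : Prop := ∀ (Ω : Type) [Field Ω] [Algebra ℂ Ω] (A : Subalgebra ℂ Ω) (e : A →ₐ[ℂ] ℂ)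
  (d : ℕ) (P Q : Pl A) (p : Fin 2 → Ω), 1 ≤ d → P.totalDegree ≤ d → Q.totalDegree ≤ d →
  IsRelPrime (homogeneousComponent d (MvPolynomial.map e.toRingHom P))
    (homogeneousComponent d (MvPolynomial.map e.toRingHom Q)) →
  aeval p P = 0 → aeval p Q = 0 →
  ∃ Δ : A, e Δ = 1 ∧ ∀ i, IsIntegral A ((Δ : Ω) * p i)

/-- A point of a finitely generated subalgebra extends to integral elements and to inverses. -/
def PointS : Prop := ∀ (Ω : Type) [Field Ω] [Algebra ℂ Ω] (A : Subalgebra ℂ Ω) (e : A →ₐ[ℂ] ℂ)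
  (x : Ω), A.FG → (IsIntegral A x ∨ ∃ b : A, e b ≠ 0 ∧ x = (b : Ω)⁻¹) →
  ∃ (A' : Subalgebra ℂ Ω) (h : A ≤ A') (e' : A' →ₐ[ℂ] ℂ), A'.FG ∧ x ∈ A' ∧
    ∀ a : A, e' ⟨a, h a.2⟩ = e a

def ArcdS : Prop := ∀ (d : ℕ) (Ω : Type) [Field Ω] [Algebra ℂ Ω]
  (χ : MvPolynomial CI ℂ →ₐ[ℂ] Ω) (p : Fin 2 → Ω) (w : Poly × Poly) (Φ0 : MvPolynomial CI ℂ),
  1 ≤ d → FC (formOf d (fun i => χ (X i)) true) (formOf d (fun i => χ (X i)) false) p →
  (∀ i : CI, d < i.2 0 + i.2 1 → χ (X i) = 0) → w.1.totalDegree ≤ d → w.2.totalDegree ≤ d →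
  IsRelPrime (homogeneousComponent d w.1) (homogeneousComponent d w.2) →
  (∀ z, eval z w.1 = 0 → eval z w.2 = 0 → jac (tay z w.1) (tay z w.2) ≠ 0) →
  (∀ Φ, χ Φ = 0 → eval (coords w) Φ = 0) → χ Φ0 ≠ 0 →
  ∃ (ψ : MvPolynomial CI ℂ →ₐ[ℂ] PowerSeries ℂ) (pt : Fin 2 → PowerSeries ℂ),
    (∀ Φ, PowerSeries.constantCoeff (ψ Φ) = eval (coords w) Φ) ∧ ψ Φ0 ≠ 0 ∧
    (∀ Φ, χ Φ = 0 → ψ Φ = 0) ∧
    FC (formOf d (fun i => ψ (X i)) true) (formOf d (fun i => ψ (X i)) false) pt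

/-- Facts on `sw`. -/
def SwS : Prop :=
  (∀ (P : Pl (PowerSeries ℂ)) (k : ℕ) (m : Fin 2 →₀ ℕ),
    coeff m (PowerSeries.coeff k (sw P)) = PowerSeries.coeff k (coeff m P)) ∧
  (∀ (P : Pl (PowerSeries ℂ)) (i : Fin 2), sw (pderiv i P) = cd (dP i) (sw P)) ∧
  (∀ (n : ℕ) (F : PowerSeries Poly), (∀ k, (PowerSeries.coeff k F).totalDegree ≤ n) →
    ∃ G : Pl (PowerSeries ℂ), G.totalDegree ≤ n ∧ sw G = F) ∧
  (∀ (n : ℕ) (G : Pl (PowerSeries ℂ)), G.totalDegree ≤ n →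
    ∀ k, (PowerSeries.coeff k (sw G)).totalDegree ≤ n) ∧
  (∀ G : Pl (PowerSeries ℂ), PowerSeries.constantCoeff (sw G) =
    MvPolynomial.map PowerSeries.constantCoeff G) ∧
  Function.Injective (sw (K := ℂ))

/-- Translation by `v`. -/
noncomputable def shift {K : Type} [CommRing K] (v : Fin 2 → K) : Pl K →ₐ[K] Pl K :=
  aeval fun i => X i + C (v i)

def LocsolS : Prop := ∀ (d : ℕ) (l : Fin (d + 1) → ℂ × ℂ × ℂ) (P Q : Pl (PowerSeries ℂ))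
  (pt : Fin 2 → PowerSeries ℂ), P.totalDegree ≤ d → Q.totalDegree ≤ d →
  MvPolynomial.map PowerSeries.constantCoeff P = pderiv 1 (ff l) →
  MvPolynomial.map PowerSeries.constantCoeff Q = -pderiv 0 (ff l) → FC P Q pt →
  ∃ (v : Fin 2 → PowerSeries ℂ) (p : Fin 2 → ℂ),
    Def l (sw (shift v P)) (sw (shift v Q)) ∧ LocSol l (sw (shift v P)) (sw (shift v Q)) p

def ResS : Prop := ∀ (K : Type) [Field K] [IsAlgClosed K] [CharZero K] (P Q φ G : Pl K),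
  Irreducible φ → ¬ φ ∣ G →
  P * pderiv 0 (φ * G) + Q * pderiv 1 (φ * G) = φ * G * (pderiv 0 P + pderiv 1 Q) →
  ∃ μ : K, φ ∣ P - C μ * G * pderiv 1 φ ∧ φ ∣ Q + C μ * G * pderiv 0 φ

def LogfS : Prop := ∀ (K : Type) [Field K] [IsAlgClosed K] [CharZero K] (d : ℕ) (P Q F : Pl K),
  P.totalDegree ≤ d → Q.totalDegree ≤ d → F.totalDegree = d + 1 → Squarefree F →
  P * pderiv 0 F + Q * pderiv 1 F = F * (pderiv 0 P + pderiv 1 Q) →
  ∃ (s : ℕ) (D : Fin s → ℕ), (∀ i, 0 < D i) ∧ ∑ i, D i = d + 1 ∧ IsLog D P Q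

/-- The algebraic closure of `ℂ((t))`. -/
abbrev Om : Type := AlgebraicClosure (FractionRing (PowerSeries ℂ))

def EndS : Prop := ∀ (d : ℕ) (l : Fin (d + 1) → ℂ × ℂ × ℂ), Geo l → Lin l → Jac l →
  ∀ (P Q : Pl (PowerSeries ℂ)) (v : Fin 2 → PowerSeries ℂ), P.totalDegree ≤ d →
  Q.totalDegree ≤ d →
  (Ham d (sw (shift v P)) (sw (shift v Q)) ∨ NonHam l (sw (shift v P)) (sw (shift v Q))) →
  ∃ (s : ℕ) (D : Fin s → ℕ), (∀ i, 0 < D i) ∧ ∑ i, D i = d + 1 ∧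
    IsLog D (MvPolynomial.map (algebraMap (PowerSeries ℂ) Om) P)
      (MvPolynomial.map (algebraMap (PowerSeries ℂ) Om) Q)

def ParamS : Prop := ∀ (d s : ℕ) (D : Fin s → ℕ), (∀ i, 0 < D i) → ∑ i, D i = d + 1 →
  IsIrred (zcl (LogFam d D)) ∧
  (∀ (Φ : MvPolynomial CI ℂ), Van (LogFam d D) Φ →
    ∀ (K : Type) [CommRing K] [Algebra ℂ K] (P Q : Pl K), IsLog D P Q →
      aeval (coordsK P Q) Φ = 0) ∧
  ∀ C : Set (Fol d), ¬ C ⊆ zcl (LogFam d D) → ∃ Φ, Van (LogFam d D) Φ ∧ ¬ Van C Φ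

def MorseS : Prop := ∀ (h : Poly) (p : Fin 2 → ℂ), (∀ i, eval p (pderiv i h) = 0) →
  hess (tay p h) ≠ 0 → ∃ e : OpenPartialHomeomorph (Fin 2 → ℂ) (Fin 2 → ℂ), p ∈ e.source ∧
    e p = 0 ∧ DifferentiableOn ℂ e e.source ∧ DifferentiableOn ℂ e.symm e.target ∧
    ∀ z ∈ e.source, e z 0 ^ 2 + e z 1 ^ 2 = eval z h - eval p h

/-- A logarithmic form with positive rational residues has a centre at every nondegenerate
singular point off the curves. -/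
def LogcS : Prop := ∀ (s : ℕ) (f : Fin s → Poly) (lam : Fin s → ℚ) (p : Fin 2 → ℂ)
  (w : Poly × Poly), (∀ i, 0 < lam i) → (∀ i, eval p (f i) ≠ 0) →
  w = ∑ i, (C ((lam i : ℚ) : ℂ) * ∏ j ∈ Finset.univ.erase i, f j) • dform (f i) →
  eval p w.1 = 0 → eval p w.2 = 0 → jac (tay p w.1) (tay p w.2) ≠ 0 → IsCenter w p

/-- A nondegenerate common zero persists in a polynomial family. -/
def PersS : Prop := ∀ (P Q : Pl (Polynomial ℂ)) (p : Fin 2 → ℂ),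
  eval p (MvPolynomial.map (Polynomial.evalRingHom 0) P) = 0 →
  eval p (MvPolynomial.map (Polynomial.evalRingHom 0) Q) = 0 →
  jac (tay p (MvPolynomial.map (Polynomial.evalRingHom 0) P))
    (tay p (MvPolynomial.map (Polynomial.evalRingHom 0) Q)) ≠ 0 →
  ∀ G : Pl (Polynomial ℂ), eval p (MvPolynomial.map (Polynomial.evalRingHom 0) G) ≠ 0 →
  ∀ᶠ t : ℂ in nhds 0, ∃ z : Fin 2 → ℂ,
    eval z (MvPolynomial.map (Polynomial.evalRingHom t) P) = 0 ∧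
    eval z (MvPolynomial.map (Polynomial.evalRingHom t) Q) = 0 ∧
    jac (tay z (MvPolynomial.map (Polynomial.evalRingHom t) P))
      (tay z (MvPolynomial.map (Polynomial.evalRingHom t) Q)) ≠ 0 ∧
    eval z (MvPolynomial.map (Polynomial.evalRingHom t) G) ≠ 0

def DensS : Prop := ∀ (d : ℕ) (l : Fin (d + 1) → ℂ × ℂ × ℂ), Geo l → Lin l → Jac l →
  ∀ p, Face l p → hess (tay p (ff l)) ≠ 0 →
  ∀ (s : ℕ) (D : Fin s → ℕ), (∀ i, 0 < D i) → ∑ i, D i = d + 1 → LogFam d D ⊆ zcl (Cent d)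

/-- The conclusion for one arrangement. -/
def Concl (l : Fin (d + 1) → ℂ × ℂ × ℂ) : Prop :=
  ∀ F₀ : Fol d, IsPt F₀ (dform (∏ i, lin (l i))) → ∀ C, IsComponent (zcl (Cent d)) C → F₀ ∈ C →
    ∃ (s : ℕ) (D : Fin s → ℕ), (∀ i, 0 < D i) ∧ ∑ i, D i = d + 1 ∧ C = zcl (LogFam d D)

def VeryS : Prop := ∀ (d : ℕ) (l : Fin (d + 1) → ℂ × ℂ × ℂ), 2 ≤ d →
  AlgebraicIndependent ℚ (coef l) → Concl l

def OpenS : Prop := ∀ d : ℕ, 2 ≤ d → ∃ Φ : MvPolynomial (Fin (d + 1) × Fin 3) ℂ, Φ ≠ 0 ∧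
  ∀ l : Fin (d + 1) → ℂ × ℂ × ℂ, eval (coef l) Φ ≠ 0 →
    GenPos l ∧ (∃ F₀ : Fol d, IsPt F₀ (dform (∏ i, lin (l i)))) ∧ Concl l

/-! ### Rows -/

def OfObs : Prop := ExtS → ObsS
def OfRec : Prop := ObsS → Rec0S ∧ RecS
def OfIif : Prop := ExtS → IifS
def OfSyla : Prop := Syl0S → SylaS
def OfSylg : Prop := Syl0S → CoprS → SylgS
def OfJac : Prop := Syl0S → CoprS → JacS
def OfMor : Prop := GensS → MorS
def OfBas : Prop := PoincS → BasS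
def OfDv : Prop := PoincS → DvS
def OfStep : Prop := PoincS → OneS → StepS
def OfDeg : Prop := PoincS → OneS → DegS
def OfTf : Prop := PoincS → StepS → DegS → TfS
def OfSoc : Prop := PoincS → SocS
def OfWron : Prop := PoincS → WronS
def OfEmb : Prop := LgS → EmbS
def OfNabla : Prop := LgS → NablaS
def OfLoca : Prop := GradS → LocaS
def OfLocb : Prop := GradS → LocbS
def OfNf : Prop := LocaS → LocbS → NfS
def OfPer : Prop := RegS → SubstS → LocaS → LocbS → PerS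
def OfC8a : Prop := PoincS → C8aS
def OfC8 : Prop := C8aS → C8S
def OfC9 : Prop := PerS → NablaS → GensS → C9S
def OfGm : Prop := LgS → SylgS → GensS → GmS
def OfPui : Prop := ExpS → PuiS
def OfInert : Prop := DeruS → PvS → InertS
def OfEta1 : Prop := DeruS → PuiS → Eta1S
def OfEta2 : Prop := DeruS → PuiS → Eta2S
def OfEtale : Prop := DeruS → Eta1S → Eta2S → EtaleS
def OfGen : Prop := DeruS → GenS
def OfUnr : Prop := InertS → EtaleS → UnrS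
def OfFt : Prop := PerS → GensS → GmS → EqvS → UnrS → GenS → TransS → FtS
def OfCore : Prop := LgS → PerS → NablaS → C8S → C9S → CoreS
def OfSol : Prop := ObsS → Rec0S → SocS → EmbS → RegS → SolS
def OfHam : Prop := PoincS → RecS → GdivS → HamS
def OfChart : Prop := RecS → GdivS → IifS → ChartS
def OfBthm : Prop := WronS → HamS → ChartS → BthmS
def OfTayl : Prop := OsgS → TaylS
def OfGenpt : Prop := ZarS → TaylS → GenptS
def OfArc : Prop := ExpS → ArcS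
def OfInteg : Prop := SylaS → IntegS
def OfArcd : Prop := IntegS → PointS → NfS → ArcS → ArcdS
def OfLocsol : Prop := SwS → ExtS → RegS → LocsolS
def OfLogf : Prop := ResS → LogfS
def OfEnd : Prop := SwS → SylaS → LogfS → EndS
def OfLogc : Prop := MorseS → LogcS
def OfDens : Prop := SylaS → LogcS → PersS → DensS
def OfOpen : Prop := ZarS → LinS → JacS → VeryS → OpenS

end Pool.Agent.MP_aa1ef7_ag.H20
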